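import Pool.Agent.Work.MP_e4a69c_an.SU.All

/-! Multiaffine suspensions (MP_e4a69c_an, part AF of theorem DZ). -/

set_option autoImplicit false

namespace Pool.Agent.Work.MP_e4a69c_an.AF

open scoped Manifold ContDiff Topology
open Pool.Agent.Work.MP_e4a69c_an.SU

section

variable {ι : Type} [Fintype ι] [DecidableEq ι] {M : ι → Type} [∀ i, NormedAddCommGroup (M i)]
  [∀ i, NormedSpace ℂ (M i)] {B : Type} [NormedAddCommGroup B] [NormedSpace ℂ B]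

/-- `f` is entire, affine in every slot, and linear in the slot `i0`. -/
structure MAff (f : (∀ i, M i) → ℂ) (i0 : ι) : Prop where
  hol : Differentiable ℂ f
  aff : ∀ x i, IsLinearMap ℂ
    (fun m : M i => f (Function.update x i m) - f (Function.update x i 0))
  lin : ∀ x, f (Function.update x i0 0) = 0

/-- The slope `c_j(x)` of `f` in the slot `j`: the derivative in the slot `j`. -/
noncomputable def sA (f : (∀ i, M i) → ℂ) (x : ∀ i, M i) (j : ι) : M j →L[ℂ] ℂ :=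
  (fderiv ℂ f x).comp (ContinuousLinearMap.single ℂ M j)

/-- `F(x,z) = f(x) - p(z)` -/
def fA (f : (∀ i, M i) → ℂ) (p : B → ℂ) : (∀ i, M i) × B → ℂ := fun y => f y.1 - p y.2

/-- velocities of the shear in the slot `j`; here `α = dp(z)` -/
def RI (f : (∀ i, M i) → ℂ) (α : B →L[ℂ] ℂ) (j : ι) (x : ∀ i, M i) : Set ((∀ i, M i) × B) :=
  {τ | ∃ t : (M j →L[ℂ] ℂ) →L[ℂ] B, (∀ k, k ≠ j → τ.1 k = 0) ∧
    (∀ ζ : M j →L[ℂ] ℂ, ζ (τ.1 j) = α (t ζ)) ∧ τ.2 = t (sA f x j)}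

/-- velocities of the skew sprays in the slot `j` -/
def RK (f : (∀ i, M i) → ℂ) (j : ι) (x : ∀ i, M i) : Set ((∀ i, M i) × B) :=
  {τ | sA f x j ≠ 0 ∧ (∀ k, k ≠ j → τ.1 k = 0) ∧ sA f x j (τ.1 j) = 0 ∧ τ.2 = 0}

/-- velocities of the exponential sprays in the slots `j`, `i0` -/
def RE (f : (∀ i, M i) → ℂ) (i0 j : ι) (x : ∀ i, M i) : Set ((∀ i, M i) × B) :=
  {τ | ∃ u : M j, j ≠ i0 ∧ τ.1 j = f x • u ∧ τ.1 i0 = -(sA f x j u • x i0) ∧
    (∀ i, i ≠ j → i ≠ i0 → τ.1 i = 0) ∧ τ.2 = 0}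

end

end Pool.Agent.Work.MP_e4a69c_an.AF
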