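import Pool.Agent.Work.MP_e4a69c_an.AF.Stmts

/-! MP_e4a69c_an, part AF, item EQ: equivariance of the slopes. -/

set_option autoImplicit false

namespace Pool.Agent.Work.MP_e4a69c_an.AF

open scoped Manifold ContDiff Topology
open Pool.Agent.Work.MP_e4a69c_an.SU

namespace IEQ

theorem inv_act {𝔤 : Type} [NormedAddCommGroup 𝔤] [NormedSpace ℂ 𝔤]
    {G : Type} [TopologicalSpace G] [ChartedSpace 𝔤 G] [Group G]
    {V : Type} [NormedAddCommGroup V] [NormedSpace ℂ V] (a : GMod 𝔤 G V) (g : G) (m : V) :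
    a.act g (a.act g⁻¹ m) = m := by
  rw [← GMod.act_mul, mul_inv_cancel]
  simp

end IEQ

theorem pr_EQ (hDS : StDS) : StEQ := by
  intro 𝔤 _ _ G _ _ _ _ ι _ _ M _ _ _ ρ f i0 hM hf g x j
  obtain ⟨h1, -⟩ := hDS ι M ℂ f i0 hM
  apply ContinuousLinearMap.ext
  intro m
  have h2 : ((ρ j).hom (GMod.triv ℂ)).act g (sA f x j) m = sA f x j ((ρ j).act g⁻¹ m) := rfl
  have key : ∀ m : M j, f (Function.update (fun i => (ρ i).act g (x i)) j m) =
      f (Function.update x j ((ρ j).act g⁻¹ m)) := by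
    intro m
    rw [← hf g (Function.update x j ((ρ j).act g⁻¹ m))]
    congr 1
    funext i
    by_cases h : i = j
    · subst h
      rw [Function.update_self, Function.update_self, IEQ.inv_act]
    · rw [Function.update_of_ne h, Function.update_of_ne h]
  rw [h2, h1, h1, key, key, map_zero]

end Pool.Agent.Work.MP_e4a69c_an.AF
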