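import Pool.Agent.Work.MP_e4a69c_an.AF.Stmts

set_option autoImplicit false

/-! Item IE of block AF: interpolation -/

namespace Pool.Agent.Work.MP_e4a69c_an.AF

open scoped Manifold ContDiff Topology
open Pool.Agent.Work.MP_e4a69c_an.SU

namespace IIE

section

variable {ι : Type} [DecidableEq ι] {M : ι → Type} [∀ i, NormedAddCommGroup (M i)]
  [∀ i, NormedSpace ℂ (M i)]

/-- the vector with coordinate `x0 i` on `A`, `u i` on `S`, `x i` elsewhere -/
def vv (x u x0 : ∀ i, M i) (A S : Finset ι) (i : ι) : M i :=
  if i ∈ A then x0 i else if i ∈ S then u i else x i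

omit [∀ i, NormedAddCommGroup (M i)] [∀ i, NormedSpace ℂ (M i)] in
lemma vv_insert (x u x0 : ∀ i, M i) (A S : Finset ι) (j : ι) :
    vv x u x0 (insert j A) S = Function.update (vv x u x0 A S) j (x0 j) := by
  funext i
  by_cases h : i = j
  · subst h
    simp [vv]
  · simp [vv, Function.update_of_ne h, h]

omit [∀ i, NormedAddCommGroup (M i)] [∀ i, NormedSpace ℂ (M i)] in
lemma vv_insert' (x u x0 : ∀ i, M i) (A S : Finset ι) (j : ι) (hA : j ∉ A) :
    vv x u x0 A (insert j S) = Function.update (vv x u x0 A S) j (u j) := by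
  funext i
  by_cases h : i = j
  · subst h
    simp [vv, hA]
  · simp [vv, Function.update_of_ne h, h]

omit [∀ i, NormedAddCommGroup (M i)] [∀ i, NormedSpace ℂ (M i)] in
lemma vv_self (x u x0 : ∀ i, M i) (A S : Finset ι) (j : ι) (hA : j ∉ A) (hS : j ∉ S) :
    vv x u x0 A S = Function.update (vv x u x0 A S) j (x j) := by
  funext i
  by_cases h : i = j
  · subst h
    simp [vv, hA, hS]
  · simp [Function.update_of_ne h]

lemma claim [Fintype ι] (f : (∀ i, M i) → ℂ) (i0 : ι) (hf : MAff f i0) (x x0 : ∀ i, M i) (t : ℂ)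
    (ht : t ≠ 0)
    (h : ∀ S : Finset ι, f (fun i => if i ∈ S then x i + t • (x0 i - x i) else x i) = 0)
    (A : Finset ι) :
    ∀ S : Finset ι, Disjoint A S → f (vv x (fun i => x i + t • (x0 i - x i)) x0 A S) = 0 := by
  induction A using Finset.induction_on with
  | empty =>
    intro S _
    have e : vv x (fun i => x i + t • (x0 i - x i)) x0 ∅ S =
        fun i => if i ∈ S then x i + t • (x0 i - x i) else x i := by
      funext i
      simp [vv]
    rw [e]
    exact h S
  | insert j A hj ih =>
    intro S hS
    rw [Finset.disjoint_insert_left] at hS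
    rw [vv_insert]
    obtain ⟨v, hv⟩ : ∃ v, v = vv x (fun i => x i + t • (x0 i - x i)) x0 A S := ⟨_, rfl⟩
    have hx : f (Function.update v j (x j)) = 0 := by
      rw [hv, ← vv_self _ _ _ A S j hj hS.1]
      exact ih S hS.2
    have hu : f (Function.update v j (x j + t • (x0 j - x j))) = 0 := by
      rw [hv]
      have e := vv_insert' x (fun i => x i + t • (x0 i - x i)) x0 A S j hj
      rw [show x j + t • (x0 j - x j) = (fun i => x i + t • (x0 i - x i)) j from rfl, ← e]
      exact ih (insert j S) (by
        rw [Finset.disjoint_insert_right]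
        exact ⟨hj, hS.2⟩)
    rw [← hv]
    obtain ⟨φ, hφ⟩ : ∃ φ : M j → ℂ, ∀ m, φ m =
        f (Function.update v j m) - f (Function.update v j 0) := ⟨_, fun _ => rfl⟩
    have hlin : IsLinearMap ℂ φ := by
      have h2 := hf.aff v j
      have h3 : φ = fun m : M j => f (Function.update v j m) - f (Function.update v j 0) :=
        funext hφ
      rw [h3]
      exact h2
    have h1 : φ (x j) = -f (Function.update v j 0) := by rw [hφ, hx, zero_sub]
    have h2 : φ (x j + t • (x0 j - x j)) = -f (Function.update v j 0) := by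
      rw [hφ, hu, zero_sub]
    rw [hlin.map_add, hlin.map_smul, h1, smul_eq_mul] at h2
    have h3 : φ (x0 j - x j) = 0 := by
      have h4 : t * φ (x0 j - x j) = 0 := by linear_combination h2
      exact (mul_eq_zero.mp h4).resolve_left ht
    have h5 : φ (x0 j) = φ (x j) := by
      have h6 : x0 j = x j + (x0 j - x j) := by abel
      rw [h6, hlin.map_add, h3, add_zero]
    rw [h1, hφ] at h5
    linear_combination h5

end

end IIE

/-- item IE -/
theorem pr_IE : StIE := by
  intro ι _ _ M _ _ f i0 x x0 t hf ht h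
  have := IIE.claim f i0 hf x x0 t ht h Finset.univ ∅ (Finset.disjoint_empty_right _)
  have e : IIE.vv x (fun i => x i + t • (x0 i - x i)) x0 Finset.univ ∅ = x0 := by
    funext i
    simp [IIE.vv]
  rwa [e] at this

end Pool.Agent.Work.MP_e4a69c_an.AF
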