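import Pool.Agent.Work.MP_e4a69c_an.AF.Stmts

/-! Part AF of theorem DZ (MP_e4a69c_an), item IS: induction over the slots. -/

set_option autoImplicit false

namespace Pool.Agent.Work.MP_e4a69c_an.AF

open scoped Manifold ContDiff Topology
open Pool.Agent.Work.MP_e4a69c_an.SU

/-- IS: induction over the slots. -/
theorem pr_IS (hBA : StBA) (hPC : StPC) (hPH : StPH) (hDS : StDS) : StIS := by
  intro 𝔤 _ _ G _ _ _ _ ι _ _ M _ _ _ B _ _ _ ρ ρV f i0 p hf hV hinv hp hs x0 hx0 b S
  have hB := hBA 𝔤 G ι M B ρ ρV f i0 p hf hV hinv hp hs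
  obtain ⟨-, -, hi0, -, hd0⟩ := hDS ι M B f i0 hf
  have hd := (hd0 p hp).1
  induction S using Finset.induction_on with
  | empty =>
    obtain ⟨W, i1, i2, i3, σ, S, d⟩ := hB
    refine ⟨W, i1, i2, i3, σ, S, fun y hy τ hτ => d y hy τ ⟨?_, hτ.2⟩⟩
    rcases hτ.1 with h | h
    · exact h
    · refine ⟨i0, fun hc => h ?_⟩
      have h5 : (fun i => if i ∈ (∅ : Finset ι) then y.1 i + (fderiv ℂ p y.2 b) • (x0 i - y.1 i)
          else y.1 i) = y.1 := by
        funext i
        rw [if_neg (Finset.notMem_empty i)]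
      rw [h5, ← hi0 y.1, hc]
      rfl
  | insert j S0 hj ih =>
    obtain ⟨Ψ, hΨ, h1, h2, h3, h4⟩ := hPH 𝔤 G ι M B ρ ρV f i0 p hf hV hinv hp j b
    have hA : Differentiable ℂ (fun v : (∀ i, M i) × B => x0 j - v.1 j) := by
      have h0 : Differentiable ℂ (fun v : (∀ i, M i) × B => v.1 j) :=
        ((ContinuousLinearMap.proj j : (∀ i, M i) →L[ℂ] M j).comp
          (ContinuousLinearMap.fst ℂ (∀ i, M i) B)).differentiable
      exact (differentiable_const _).sub h0
    have hAe : ∀ g (v : (∀ i, M i) × B), (fun v : (∀ i, M i) × B => x0 j - v.1 j) (ρV.act g v) =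
        (ρ j).act g ((fun v : (∀ i, M i) × B => x0 j - v.1 j) v) := by
      intro g v
      show x0 j - (ρV.act g v).1 j = (ρ j).act g (x0 j - v.1 j)
      rw [hV g v, map_sub, hx0 g j]
    have hJ := hPC 𝔤 G ((∀ i, M i) × B) (M j) ρV (ρ j) (fA f p) Ψ
      (fun v : (∀ i, M i) × B => x0 j - v.1 j) hΨ hA h1 h2 h3 hAe _ ih
    obtain ⟨W, i1, i2, i3, σ, S, d⟩ := pr_CC 𝔤 G _ ρV (fA f p) _ _ hB hJ
    refine ⟨W, i1, i2, i3, σ, S, fun y hy τ hτ => d y hy τ (Submodule.subset_span ?_)⟩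
    by_cases hne : ∃ k, sA f y.1 k ≠ 0
    · exact Or.inl ⟨hne, hτ.2⟩
    · right
      have hh : f (fun i => if i ∈ insert j S0 then y.1 i + (fderiv ℂ p y.2 b) • (x0 i - y.1 i)
          else y.1 i) ≠ 0 := by
        rcases hτ.1 with h | h
        · exact absurd h hne
        · exact h
      push Not at hne
      have hφy := h4 y (x0 j - y.1 j) (hne j)
      have hz : (Ψ (y, x0 j - y.1 j)).2 = y.2 := by rw [hφy]
      show fderiv ℂ (fun u => Ψ (u, x0 j - y.1 j)) y τ ∈ {τ' | ((∃ k, sA f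
        (Ψ (y, x0 j - y.1 j)).1 k ≠ 0) ∨ f (fun i => if i ∈ S0 then (Ψ (y, x0 j - y.1 j)).1 i +
          (fderiv ℂ p (Ψ (y, x0 j - y.1 j)).2 b) • (x0 i - (Ψ (y, x0 j - y.1 j)).1 i)
          else (Ψ (y, x0 j - y.1 j)).1 i) ≠ 0) ∧
          fderiv ℂ (fA f p) (Ψ (y, x0 j - y.1 j)) τ' = 0}
      refine ⟨Or.inr ?_, ?_⟩
      · have h6 : (fun i => if i ∈ S0 then (Ψ (y, x0 j - y.1 j)).1 i +
            (fderiv ℂ p (Ψ (y, x0 j - y.1 j)).2 b) • (x0 i - (Ψ (y, x0 j - y.1 j)).1 i)
            else (Ψ (y, x0 j - y.1 j)).1 i) = (fun i => if i ∈ insert j S0 then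
              y.1 i + (fderiv ℂ p y.2 b) • (x0 i - y.1 i) else y.1 i) := by
          funext i
          rw [hz]
          have h7 : (Ψ (y, x0 j - y.1 j)).1 = Function.update y.1 j
              (y.1 j + (fderiv ℂ p y.2 b) • (x0 j - y.1 j)) := by
            rw [hφy]
          rw [h7]
          by_cases hi : i = j
          · subst hi
            rw [if_neg hj, if_pos (Finset.mem_insert_self _ _), Function.update_self]
          · rw [Function.update_of_ne hi]
            by_cases hi2 : i ∈ S0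
            · rw [if_pos hi2, if_pos (Finset.mem_insert_of_mem hi2)]
            · rw [if_neg hi2, if_neg]
              rw [Finset.mem_insert]
              push Not
              exact ⟨hi, hi2⟩
        rw [h6]
        exact hh
      · have hΨy : DifferentiableAt ℂ (fun u : (∀ i, M i) × B => Ψ (u, x0 j - y.1 j)) y :=
          (hΨ.comp (differentiable_id.prodMk (differentiable_const _))) y
        have h6 : fderiv ℂ (fA f p ∘ (fun u => Ψ (u, x0 j - y.1 j))) y =
            (fderiv ℂ (fA f p) (Ψ (y, x0 j - y.1 j))).comp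
              (fderiv ℂ (fun u => Ψ (u, x0 j - y.1 j)) y) :=
          fderiv_comp y (hd _) hΨy
        have h7 : fA f p ∘ (fun u => Ψ (u, x0 j - y.1 j)) = fA f p :=
          funext fun u => h2 u _
        rw [h7] at h6
        have h9 : fderiv ℂ (fA f p) y τ = fderiv ℂ (fA f p) (Ψ (y, x0 j - y.1 j))
            (fderiv ℂ (fun u => Ψ (u, x0 j - y.1 j)) y τ) := by
          rw [h6]
          rfl
        rw [← h9]
        exact hτ.2

end Pool.Agent.Work.MP_e4a69c_an.AF
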