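import Pool.Agent.Work.MP_e4a69c_an.AF.Stmts

/-! MP_e4a69c_an, block AF, item LA: linear algebra where some slope is not zero. -/

set_option autoImplicit false

namespace Pool.Agent.Work.MP_e4a69c_an.AF

open scoped Manifold ContDiff Topology
open Pool.Agent.Work.MP_e4a69c_an.SU

namespace ILA

theorem one_of_ne {E : Type} [NormedAddCommGroup E] [NormedSpace ℂ E] (c : E →L[ℂ] ℂ)
    (h : c ≠ 0) : ∃ m, c m = 1 := by
  obtain ⟨m, hm⟩ : ∃ m, c m ≠ 0 := by
    by_contra hcon
    push Not at hcon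
    exact h (ContinuousLinearMap.ext hcon)
  exact ⟨(c m)⁻¹ • m, by rw [map_smul, smul_eq_mul, inv_mul_cancel₀ hm]⟩

section

variable {ι : Type} [Fintype ι] [DecidableEq ι] {M : ι → Type} [∀ i, NormedAddCommGroup (M i)]
  [∀ i, NormedSpace ℂ (M i)] {B : Type} [NormedAddCommGroup B] [NormedSpace ℂ B]
  (f : (∀ i, M i) → ℂ) (i0 : ι) (α : B →L[ℂ] ℂ) (x : ∀ i, M i)

/-- the span -/
def SS : Submodule ℂ ((∀ i, M i) × B) :=
  Submodule.span ℂ ((⋃ j, RI f α j x) ∪ (⋃ j, RK f j x) ∪ (⋃ j, RE f i0 j x))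

theorem mem_RI (k : ι) (t : (M k →L[ℂ] ℂ) →L[ℂ] B) (m : M k) (h : ∀ ζ : M k →L[ℂ] ℂ,
    ζ m = α (t ζ)) : ((Pi.single k m, t (sA f x k)) : (∀ i, M i) × B) ∈ SS f i0 α x := by
  refine Submodule.subset_span (Or.inl (Or.inl (Set.mem_iUnion.2 ⟨k, t, ?_, ?_, rfl⟩)))
  · intro i hi
    exact Pi.single_eq_of_ne hi m
  · intro ζ
    show ζ ((Pi.single k m : ∀ i, M i) k) = α (t ζ)
    rw [Pi.single_eq_same]
    exact h ζ

theorem mem_RK (k : ι) (m : M k) (h : sA f x k ≠ 0) (h' : sA f x k m = 0) :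
    ((Pi.single k m, 0) : (∀ i, M i) × B) ∈ SS f i0 α x := by
  refine Submodule.subset_span (Or.inl (Or.inr (Set.mem_iUnion.2 ⟨k, h, ?_, ?_, rfl⟩)))
  · intro i hi
    exact Pi.single_eq_of_ne hi m
  · show sA f x k ((Pi.single k m : ∀ i, M i) k) = 0
    rw [Pi.single_eq_same]
    exact h'

theorem mem_RE (j : ι) (u : M j) (h : j ≠ i0) :
    ((Pi.single j (f x • u) - Pi.single i0 (sA f x j u • x i0), 0) : (∀ i, M i) × B) ∈
      SS f i0 α x := by
  refine Submodule.subset_span (Or.inr (Set.mem_iUnion.2 ⟨j, u, h, ?_, ?_, ?_, rfl⟩))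
  · show (Pi.single j (f x • u) - Pi.single i0 (sA f x j u • x i0) : ∀ i, M i) j = f x • u
    rw [Pi.sub_apply, Pi.single_eq_same, Pi.single_eq_of_ne h, sub_zero]
  · show (Pi.single j (f x • u) - Pi.single i0 (sA f x j u • x i0) : ∀ i, M i) i0 =
      -(sA f x j u • x i0)
    rw [Pi.sub_apply, Pi.single_eq_same, Pi.single_eq_of_ne h.symm, zero_sub]
  · intro i hi hi'
    show (Pi.single j (f x • u) - Pi.single i0 (sA f x j u • x i0) : ∀ i, M i) i = 0
    rw [Pi.sub_apply, Pi.single_eq_of_ne hi, Pi.single_eq_of_ne hi', sub_zero]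

theorem single_add_mk (k : ι) (m m' : M k) (b b' : B) :
    ((Pi.single k m, b) : (∀ i, M i) × B) + (Pi.single k m', b') =
      (Pi.single k (m + m'), b + b') := by
  rw [Prod.mk_add_mk, ← Pi.single_add]

theorem case_two (k : ι) (m : M k) (b : B) (h : sA f x k ≠ 0) (h' : sA f x k m = α b) :
    ((Pi.single k m, b) : (∀ i, M i) × B) ∈ SS f i0 α x := by
  obtain ⟨m0, hm0⟩ := one_of_ne _ h
  have h1 := mem_RI f i0 α x k ((ContinuousLinearMap.apply ℂ ℂ m0).smulRight b) (α b • m0) (by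
    intro ζ
    rw [ContinuousLinearMap.smulRight_apply, map_smul, map_smul, smul_eq_mul, smul_eq_mul,
      mul_comm]
    rfl)
  have e1 : ((ContinuousLinearMap.apply ℂ ℂ m0).smulRight b) (sA f x k) = b := by
    rw [ContinuousLinearMap.smulRight_apply]
    show (sA f x k m0) • b = b
    rw [hm0, one_smul]
  rw [e1] at h1
  have h2 := mem_RK f i0 α x k (m - α b • m0) h (by
    rw [map_sub, map_smul, hm0, h', smul_eq_mul, mul_one, sub_self])
  have h3 := add_mem h1 h2
  rw [single_add_mk, add_zero, add_sub_cancel] at h3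
  exact h3

theorem sum_up (ξ : ∀ i, M i) (b : B) (β : ι → B) (hb : ∑ k, β k = b)
    (h : ∀ k, ((Pi.single k (ξ k), β k) : (∀ i, M i) × B) ∈ SS f i0 α x) :
    ((ξ, b) : (∀ i, M i) × B) ∈ SS f i0 α x := by
  have h1 : ∑ k, ((Pi.single k (ξ k), β k) : (∀ i, M i) × B) = (ξ, b) := by
    refine Prod.ext ?_ ?_
    · rw [Prod.fst_sum]
      exact Finset.univ_sum_single ξ
    · rw [Prod.snd_sum]
      exact hb
  rw [← h1]
  exact sum_mem fun k _ => h k

end

end ILA

open ILA in
theorem pr_LA (hDS : StDS) : StLA := by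
  intro ι _ _ M _ _ _ B _ _ f i0 α x j0 hf hj0 hα τ hτ
  show τ ∈ SS f i0 α x
  obtain ⟨ξ, b⟩ := τ
  simp only at hτ
  by_cases hα0 : α = 0
  · have hfx : f x ≠ 0 := fun h => hα h hα0
    have hc : sA f x i0 (x i0) = f x := (hDS ι M B f i0 hf).2.2.1 x
    have hci : sA f x i0 ≠ 0 := by
      intro h
      apply hfx
      rw [← hc, h]
      rfl
    have hsplit : sA f x i0 (ξ i0) + ∑ k ∈ Finset.univ.erase i0, sA f x k (ξ k) = 0 := by
      rw [Finset.add_sum_erase _ (fun k => sA f x k (ξ k)) (Finset.mem_univ i0), hτ, hα0]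
      rfl
    have h0 : ((Pi.single i0 0, b) : (∀ i, M i) × B) ∈ SS f i0 α x :=
      case_two f i0 α x i0 0 b hci (by rw [map_zero, hα0]; rfl)
    have h1 : ∀ k, k ≠ i0 → ((Pi.single k (ξ k) -
        Pi.single i0 (sA f x k ((f x)⁻¹ • ξ k) • x i0), 0) : (∀ i, M i) × B) ∈
          SS f i0 α x := by
      intro k hk
      have g1 := mem_RE (B := B) f i0 α x k ((f x)⁻¹ • ξ k) hk
      rw [smul_inv_smul₀ hfx] at g1
      exact g1
    have h2 := mem_RK f i0 α x i0
      (ξ i0 + ∑ k ∈ Finset.univ.erase i0, sA f x k ((f x)⁻¹ • ξ k) • x i0) hci (by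
        rw [map_add, map_sum]
        have e : ∀ k ∈ Finset.univ.erase i0, sA f x i0 (sA f x k ((f x)⁻¹ • ξ k) • x i0) =
            sA f x k (ξ k) := by
          intro k _
          rw [map_smul, hc, map_smul, smul_eq_mul, smul_eq_mul, mul_comm, mul_inv_cancel_left₀ hfx]
        rw [Finset.sum_congr rfl e, hsplit])
    have h3 : ∑ k ∈ Finset.univ.erase i0, ((Pi.single k (ξ k) -
        Pi.single i0 (sA f x k ((f x)⁻¹ • ξ k) • x i0), 0) : (∀ i, M i) × B) ∈
          SS f i0 α x :=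
      sum_mem fun k hk => h1 k (Finset.ne_of_mem_erase hk)
    have h4 := add_mem (add_mem h3 h2) h0
    have e : ∑ k ∈ Finset.univ.erase i0, ((Pi.single k (ξ k) -
        Pi.single i0 (sA f x k ((f x)⁻¹ • ξ k) • x i0), 0) : (∀ i, M i) × B) +
        (Pi.single i0 (ξ i0 + ∑ k ∈ Finset.univ.erase i0,
          sA f x k ((f x)⁻¹ • ξ k) • x i0), 0) +
        (Pi.single i0 0, b) = (ξ, b) := by
      refine Prod.ext ?_ ?_
      · rw [Prod.fst_add, Prod.fst_add, Prod.fst_sum]
        show ∑ k ∈ Finset.univ.erase i0, (Pi.single k (ξ k) -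
          Pi.single i0 (sA f x k ((f x)⁻¹ • ξ k) • x i0)) +
          Pi.single i0 (ξ i0 + ∑ k ∈ Finset.univ.erase i0,
            sA f x k ((f x)⁻¹ • ξ k) • x i0) +
          Pi.single i0 0 = ξ
        have e1 : (Pi.single i0 (∑ k ∈ Finset.univ.erase i0,
            sA f x k ((f x)⁻¹ • ξ k) • x i0) :
            ∀ i, M i) = ∑ k ∈ Finset.univ.erase i0,
              Pi.single i0 (sA f x k ((f x)⁻¹ • ξ k) • x i0) :=
          map_sum (AddMonoidHom.single M i0) _ _
        rw [Pi.single_zero, add_zero, Pi.single_add, e1, Finset.sum_sub_distrib]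
        have e2 : ∑ k ∈ Finset.univ.erase i0, (Pi.single k (ξ k) : ∀ i, M i) +
            Pi.single i0 (ξ i0) = ξ := by
          rw [Finset.sum_erase_add _ _ (Finset.mem_univ i0)]
          exact Finset.univ_sum_single ξ
        calc _ = ∑ k ∈ Finset.univ.erase i0, (Pi.single k (ξ k) : ∀ i, M i) +
            Pi.single i0 (ξ i0) := by abel
          _ = ξ := e2
      · rw [Prod.snd_add, Prod.snd_add, Prod.snd_sum]
        simp
    rw [e] at h4
    exact h4
  · have hsplit : sA f x j0 (ξ j0) + ∑ k ∈ Finset.univ.erase j0, sA f x k (ξ k) = α b := by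
      rw [Finset.add_sum_erase _ (fun k => sA f x k (ξ k)) (Finset.mem_univ j0)]
      exact hτ
    obtain ⟨b0, hb0⟩ := one_of_ne α hα0
    have hone : ∀ k, sA f x k = 0 → ∀ m, ((Pi.single k m, 0) : (∀ i, M i) × B) ∈
        SS f i0 α x := by
      intro k hk m
      have h1 := mem_RI f i0 α x k ((ContinuousLinearMap.apply ℂ ℂ m).smulRight b0) m (by
        intro ζ
        rw [ContinuousLinearMap.smulRight_apply, map_smul, hb0, smul_eq_mul, mul_one]
        rfl)
      have e1 : ((ContinuousLinearMap.apply ℂ ℂ m).smulRight b0) (sA f x k) = 0 := by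
        rw [hk, map_zero]
      rw [e1] at h1
      exact h1
    have hk : ∀ k, ((Pi.single k (ξ k), sA f x k (ξ k) • b0) : (∀ i, M i) × B) ∈
        SS f i0 α x := by
      intro k
      by_cases h : sA f x k = 0
      · have e : sA f x k (ξ k) • b0 = 0 := by
          rw [h]
          exact zero_smul ℂ b0
        rw [e]
        exact hone k h _
      · exact case_two f i0 α x k _ _ h (by rw [map_smul, hb0, smul_eq_mul, mul_one])
    have hj : ((Pi.single j0 (ξ j0), b - ∑ k ∈ Finset.univ.erase j0, sA f x k (ξ k) • b0) :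
        (∀ i, M i) × B) ∈ SS f i0 α x := by
      refine case_two f i0 α x j0 _ _ hj0 ?_
      rw [map_sub, map_sum, ← hsplit]
      have e : ∀ k ∈ Finset.univ.erase j0, α (sA f x k (ξ k) • b0) = sA f x k (ξ k) := by
        intro k _
        rw [map_smul, hb0, smul_eq_mul, mul_one]
      rw [Finset.sum_congr rfl e, add_sub_cancel_right]
    refine sum_up f i0 α x ξ b (fun k => if k = j0 then
      b - ∑ k ∈ Finset.univ.erase j0, sA f x k (ξ k) • b0 else sA f x k (ξ k) • b0) ?_ ?_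
    · rw [← Finset.add_sum_erase _ _ (Finset.mem_univ j0), if_pos rfl]
      have e : ∑ k ∈ Finset.univ.erase j0, (if k = j0 then
          b - ∑ k ∈ Finset.univ.erase j0, sA f x k (ξ k) • b0 else sA f x k (ξ k) • b0) =
          ∑ k ∈ Finset.univ.erase j0, sA f x k (ξ k) • b0 :=
        Finset.sum_congr rfl fun k hk => if_neg (Finset.ne_of_mem_erase hk)
      rw [e, sub_add_cancel]
    · intro k
      by_cases h : k = j0
      · subst h
        simp only [if_true]
        exact hj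
      · simp only [if_neg h]
        exact hk k

end Pool.Agent.Work.MP_e4a69c_an.AF
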