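import Pool.Agent.Work.MP_e4a69c_an.AF.Stmts

/-! MP_e4a69c_an, block AF, item ME: the exponential sprays. -/

set_option autoImplicit false

namespace Pool.Agent.Work.MP_e4a69c_an.AF

open scoped Manifold ContDiff Topology
open Pool.Agent.Work.MP_e4a69c_an.SU

namespace IME

section

variable {ι : Type} [DecidableEq ι] {M : ι → Type} [∀ i, NormedAddCommGroup (M i)]
  [∀ i, NormedSpace ℂ (M i)]

/-- the new point: slot `j` is `x j + a • u`, slot `i0` is `b • x i0` -/
def nx (i0 j : ι) (x : ∀ i, M i) (a b : ℂ) (u : M j) : ∀ i, M i :=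
  Function.update (Function.update x j (x j + a • u)) i0 (b • x i0)

theorem nx_i0 (i0 j : ι) (x : ∀ i, M i) (a b : ℂ) (u : M j) : nx i0 j x a b u i0 = b • x i0 := by
  unfold nx
  rw [Function.update_self]

theorem nx_j (i0 j : ι) (h : j ≠ i0) (x : ∀ i, M i) (a b : ℂ) (u : M j) :
    nx i0 j x a b u j = x j + a • u := by
  unfold nx
  rw [Function.update_of_ne h, Function.update_self]

theorem nx_ne (i0 j i : ι) (h : i ≠ j) (h' : i ≠ i0) (x : ∀ i, M i) (a b : ℂ) (u : M j) :
    nx i0 j x a b u i = x i := by
  unfold nx
  rw [Function.update_of_ne h', Function.update_of_ne h]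

end

end IME

open IME in
theorem pr_ME (hDS : StDS) (hEQ : StEQ) (hTH : StTH) : StME := by
  intro 𝔤 _ _ G _ _ _ _ ι _ _ M _ _ _ B _ _ _ ρ ρV f i0 p hf hV hinv j
  obtain ⟨θ, hθ, hθ1, hθ0⟩ := hTH
  obtain ⟨d1, d2, d3, d4, -⟩ := hDS ι M B f i0 hf
  by_cases hji : j = i0
  · -- the set is empty
    let S : Spray ρV (fA f p) (GMod.triv (𝔤 := 𝔤) (G := G) ℂ) :=
      { s := fun x => x.1
        hol := differentiable_fst
        zero := fun y _ => rfl
        maps := fun y w h => h
        equi := fun g y w => rfl }
    refine ⟨ℂ, inferInstance, inferInstance, inferInstance, GMod.triv ℂ, S, ?_⟩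
    rintro y _ τ ⟨u, hu, -⟩
    exact absurd hji hu
  have hadd : ∀ (x : ∀ i, M i) (h : M j), f (Function.update x j (x j + h)) = f x + sA f x j h := by
    intro x h
    have e1 := d1 x j (x j + h)
    have e2 := d1 x j (x j)
    rw [Function.update_eq_self] at e2
    rw [map_add] at e1
    linear_combination -e1 + e2
  have hsc : ∀ (x : ∀ i, M i) (b : ℂ), f (Function.update x i0 (b • x i0)) = b * f x := by
    intro x b
    have e1 := d1 x i0 (b • x i0)
    rw [hf.lin x, map_smul, d3, smul_eq_mul, sub_zero] at e1
    exact e1.symm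
  have hval : ∀ (x : ∀ i, M i) (a b : ℂ) (u : M j),
      f (nx i0 j x a b u) = b * (f x + a * sA f x j u) := by
    intro x a b u
    have e1 : (Function.update x j (x j + a • u)) i0 = x i0 :=
      Function.update_of_ne (Ne.symm hji) _ _
    have e2 := hsc (Function.update x j (x j + a • u)) b
    rw [e1, hadd, map_smul, smul_eq_mul] at e2
    exact e2
  have hcinv : ∀ (g : G) (x : ∀ i, M i) (u : M j),
      sA f (fun i => (ρ i).act g (x i)) j ((ρ j).act g u) = sA f x j u := by
    intro g x u
    rw [hEQ 𝔤 G ι M ρ f i0 hf hinv g x j, GMod.hom_act, GMod.triv_act, GMod.act_inv_act]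
  let S : Spray ρV (fA f p) (ρ j) :=
    { s := fun y => (nx i0 j y.1.1 (f y.1.1 * θ (sA f y.1.1 j y.2))
        (Complex.exp (-(sA f y.1.1 j y.2))) y.2, y.1.2)
      hol := by
        have hc : Differentiable ℂ (fun y : ((∀ i, M i) × B) × M j => sA f y.1.1 j y.2) :=
          ((d4 j).comp (differentiable_fst.comp differentiable_fst)).clm_apply differentiable_snd
        have hx : ∀ i, Differentiable ℂ (fun y : ((∀ i, M i) × B) × M j => y.1.1 i) := fun i =>
          (differentiable_pi.1 differentiable_fst.fst) i
        have hfx : Differentiable ℂ (fun y : ((∀ i, M i) × B) × M j => f y.1.1) :=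
          hf.hol.comp (differentiable_fst.comp differentiable_fst)
        refine Differentiable.prodMk (differentiable_pi.2 fun i => ?_) differentiable_fst.snd
        by_cases h0 : i = i0
        · subst h0
          simp only [nx_i0]
          exact (Complex.differentiable_exp.comp hc.neg).smul (hx i)
        · by_cases h1 : i = j
          · subst h1
            simp only [nx_j i0 i hji]
            exact (hx i).add ((hfx.mul (hθ.comp hc)).smul differentiable_snd)
          · simp only [nx_ne i0 j i h1 h0]
            exact hx i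
      zero := by
        rintro ⟨x, z⟩ _
        refine Prod.ext (funext fun i => ?_) rfl
        show nx i0 j x (f x * θ (sA f x j 0)) (Complex.exp (-(sA f x j 0))) (0 : M j) i = x i
        by_cases h0 : i = i0
        · subst h0
          rw [nx_i0, map_zero, neg_zero, Complex.exp_zero, one_smul]
        · by_cases h1 : i = j
          · subst h1
            rw [nx_j i0 i hji, smul_zero, add_zero]
          · rw [nx_ne i0 j i h1 h0]
      maps := by
        rintro ⟨x, z⟩ u hy
        show f (nx i0 j x (f x * θ (sA f x j u)) (Complex.exp (-(sA f x j u))) u) - p z = 0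
        have hy' : f x - p z = 0 := hy
        have e1 := hθ1 (sA f x j u)
        have e2 : Complex.exp (-(sA f x j u)) * Complex.exp (sA f x j u) = 1 := by
          rw [← Complex.exp_add, neg_add_cancel, Complex.exp_zero]
        rw [hval]
        linear_combination hy' + f x * Complex.exp (-(sA f x j u)) * e1 + f x * e2
      equi := by
        rintro g ⟨x, z⟩ u
        rw [hV, hV]
        refine Prod.ext (funext fun i => ?_) rfl
        show nx i0 j (fun i => (ρ i).act g (x i))
            (f (fun i => (ρ i).act g (x i)) * θ (sA f (fun i => (ρ i).act g (x i)) j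
              ((ρ j).act g u)))
            (Complex.exp (-(sA f (fun i => (ρ i).act g (x i)) j ((ρ j).act g u))))
            ((ρ j).act g u) i =
          (ρ i).act g (nx i0 j x (f x * θ (sA f x j u)) (Complex.exp (-(sA f x j u))) u i)
        rw [hcinv, hinv]
        by_cases h0 : i = i0
        · subst h0
          rw [nx_i0, nx_i0, map_smul]
        · by_cases h1 : i = j
          · subst h1
            rw [nx_j i0 i hji, nx_j i0 i hji, map_add, map_smul]
          · rw [nx_ne i0 j i h1 h0, nx_ne i0 j i h1 h0] }
  refine ⟨M j, inferInstance, inferInstance, inferInstance, ρ j, S, ?_⟩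
  rintro ⟨x, z⟩ _ τ ⟨u, -, t1, t2, t3, t4⟩
  refine ⟨u, ?_⟩
  have hd : Differentiable ℂ (fun w : M j => S.s ((x, z), w)) :=
    S.hol.comp ((differentiable_const _).prodMk differentiable_id)
  have hd1 : HasDerivAt (fun t : ℂ => t • u) u 0 := by
    have := (hasDerivAt_id (0 : ℂ)).smul_const u
    rwa [one_smul] at this
  have hd2 : HasDerivAt (fun t : ℂ => S.s ((x, z), t • u))
      (fderiv ℂ (fun w : M j => S.s ((x, z), w)) 0 u) 0 := by
    have h1 : HasFDerivAt (fun w : M j => S.s ((x, z), w))
        (fderiv ℂ (fun w : M j => S.s ((x, z), w)) 0) ((0 : ℂ) • u) := by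
      rw [zero_smul]
      exact (hd 0).hasFDerivAt
    exact h1.comp_hasDerivAt (0 : ℂ) hd1
  have hd3 : HasDerivAt (fun t : ℂ => S.s ((x, z), t • u)) τ 0 := by
    have hc : ∀ t : ℂ, sA f x j (t • u) = t * sA f x j u := fun t => by
      rw [map_smul, smul_eq_mul]
    have hct : HasDerivAt (fun t : ℂ => t * sA f x j u) (sA f x j u) 0 := by
      have := (hasDerivAt_id (0 : ℂ)).mul_const (sA f x j u)
      rwa [one_mul] at this
    have hτ : τ = (τ.1, (0 : B)) := Prod.ext rfl t4
    rw [hτ]
    show HasDerivAt (fun t : ℂ => ((nx i0 j x (f x * θ (sA f x j (t • u)))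
      (Complex.exp (-(sA f x j (t • u)))) (t • u), z) : (∀ i, M i) × B)) (τ.1, 0) 0
    refine HasDerivAt.prodMk (hasDerivAt_pi.2 fun i => ?_) (hasDerivAt_const _ _)
    by_cases h0 : i = i0
    · subst h0
      simp only [nx_i0, hc]
      rw [t2]
      have h1 : HasDerivAt (fun t : ℂ => Complex.exp (-(t * sA f x j u)))
          (Complex.exp (-((0 : ℂ) * sA f x j u)) * -(sA f x j u)) 0 := hct.neg.cexp
      rw [zero_mul, neg_zero, Complex.exp_zero, one_mul] at h1
      have h2 := h1.smul_const (x i)
      rwa [neg_smul] at h2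
    · by_cases h1 : i = j
      · subst h1
        simp only [nx_j i0 i hji, hc]
        rw [t1]
        have h2 : HasDerivAt (fun t : ℂ => θ (t * sA f x i u))
            (deriv θ ((0 : ℂ) * sA f x i u) * sA f x i u) 0 :=
          ((hθ _).hasDerivAt).comp (0 : ℂ) hct
        have h3 := ((h2.const_mul (f x)).mul (hasDerivAt_id (0 : ℂ))).smul_const u
        have h4 := h3.const_add (x i)
        simp only [id, mul_zero, zero_mul, zero_add, mul_one, hθ0] at h4
        refine h4.congr_of_eventuallyEq (Filter.Eventually.of_forall fun t => ?_)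
        show x i + (f x * θ (t * sA f x i u)) • (t • u) =
          x i + (f x * θ (t * sA f x i u) * t) • u
        rw [smul_smul]
      · simp only [nx_ne i0 j i h1 h0]
        rw [t3 i h1 h0]
        exact hasDerivAt_const _ _
  exact hd2.unique hd3

end Pool.Agent.Work.MP_e4a69c_an.AF
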