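import Pool.Agent.Work.MP_e4a69c_an.AF.Stmts

set_option autoImplicit false

namespace Pool.Agent.Work.MP_e4a69c_an.AF

open scoped Manifold ContDiff Topology
open Pool.Agent.Work.MP_e4a69c_an.SU

theorem IMK.upd {ι : Type} [DecidableEq ι] {M : ι → Type} (x : ∀ i, M i) (j : ι)
    (φ : ∀ i, M i → M i) (m : M j) :
    (fun i => φ i (Function.update x j m i)) =
      Function.update (fun i => φ i (x i)) j (φ j m) := by
  funext i
  by_cases h : i = j
  · subst h
    simp
  · simp [Function.update_of_ne h]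

theorem IMK.hol2 {X D N : Type} [NormedAddCommGroup X] [NormedSpace ℂ X]
    [NormedAddCommGroup D] [NormedSpace ℂ D]
    [NormedAddCommGroup N] [NormedSpace ℂ N] (J : (D →L[ℂ] ℂ) →L[ℂ] N)
    (c : X → D) (c2 : X → N →L[ℂ] ℂ) (q : X → N) (hc : Differentiable ℂ c)
    (hc2 : Differentiable ℂ c2) (hq : Differentiable ℂ q) :
    Differentiable ℂ (fun y : X × (D →L[ℂ] N) =>
      q y.1 + y.2 (c y.1) - J ((c2 y.1).comp y.2)) := by
  have hc' : Differentiable ℂ (fun y : X × (D →L[ℂ] N) => c y.1) :=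
    Differentiable.comp (g := c) (f := fun y : X × (D →L[ℂ] N) => y.1) hc
      differentiable_fst
  have hc2' : Differentiable ℂ (fun y : X × (D →L[ℂ] N) => c2 y.1) :=
    Differentiable.comp (g := c2) (f := fun y : X × (D →L[ℂ] N) => y.1) hc2
      differentiable_fst
  have hq' : Differentiable ℂ (fun y : X × (D →L[ℂ] N) => q y.1) :=
    Differentiable.comp (g := q) (f := fun y : X × (D →L[ℂ] N) => y.1) hq
      differentiable_fst
  have h1 : Differentiable ℂ (fun y : X × (D →L[ℂ] N) => y.2 (c y.1)) :=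
    Differentiable.clm_apply differentiable_snd hc'
  have h2 : Differentiable ℂ (fun y : X × (D →L[ℂ] N) => J ((c2 y.1).comp y.2)) :=
    Differentiable.comp (g := J)
      (f := fun y : X × (D →L[ℂ] N) => (c2 y.1).comp y.2) J.differentiable
      (hc2'.clm_comp differentiable_snd)
  exact (hq'.add h1).sub h2

theorem IMK.upd_hol {ι : Type} [Fintype ι] [DecidableEq ι] {M : ι → Type}
    [∀ i, NormedAddCommGroup (M i)] [∀ i, NormedSpace ℂ (M i)] {E : Type} [NormedAddCommGroup E]
    [NormedSpace ℂ E] (x : E → ∀ i, M i) (j : ι) (h : E → M j) (hx : Differentiable ℂ x)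
    (hh : Differentiable ℂ h) : Differentiable ℂ (fun y => Function.update (x y) j (h y)) := by
  rw [differentiable_pi]
  intro i
  by_cases hi : i = j
  · subst hi
    simpa only [Function.update_self] using hh
  · simp only [Function.update_of_ne hi]
    exact (differentiable_pi.1 hx) i

theorem IMK.upd_der {ι : Type} [Fintype ι] [DecidableEq ι] {M : ι → Type}
    [∀ i, NormedAddCommGroup (M i)] [∀ i, NormedSpace ℂ (M i)] {E B : Type} [NormedAddCommGroup E]
    [NormedSpace ℂ E] [NormedAddCommGroup B] [NormedSpace ℂ B] (x : ∀ i, M i) (z : B) (j : ι)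
    (h : E → M j) (A : E →L[ℂ] M j)
    (hh : HasFDerivAt h A 0) (t : E) :
    fderiv ℂ (fun y : E => ((Function.update x j (h y), z) : (∀ i, M i) × B)) 0 t =
      (Pi.single j (A t), 0) := by
  have h1 : HasFDerivAt (fun y : E => (Function.update x j (h y) : ∀ i, M i))
      ((ContinuousLinearMap.single ℂ M j).comp A) 0 := by
    have h2 : HasFDerivAt (fun y : E => Function.update x j 0 +
        (ContinuousLinearMap.single ℂ M j) (h y))
        ((ContinuousLinearMap.single ℂ M j).comp A) 0 :=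
      ((ContinuousLinearMap.single ℂ M j).hasFDerivAt.comp (0 : E) hh).const_add _
    refine h2.congr_of_eventuallyEq (Filter.Eventually.of_forall fun y => ?_)
    funext i
    by_cases hi : i = j
    · subst hi
      simp
    · simp [Function.update_of_ne hi, Pi.single_eq_of_ne hi]
  have h3 := h1.prodMk (hasFDerivAt_const z (0 : E))
  rw [h3.fderiv]
  rfl

theorem IMK.der2 {D N : Type} [NormedAddCommGroup D] [NormedSpace ℂ D] [NormedAddCommGroup N]
    [NormedSpace ℂ N]
    (J : (D →L[ℂ] ℂ) →L[ℂ] N) (c : D) (c2 : N →L[ℂ] ℂ) (q : N) :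
    ∃ A : (D →L[ℂ] N) →L[ℂ] N, (∀ t, A t = t c - J (c2.comp t)) ∧
      HasFDerivAt (fun t : D →L[ℂ] N => q + t c - J (c2.comp t)) A 0 := by
  let A : (D →L[ℂ] N) →L[ℂ] N := (ContinuousLinearMap.apply ℂ N c) -
      J.comp (ContinuousLinearMap.compL ℂ D N ℂ c2)
  have h : HasFDerivAt (fun t : D →L[ℂ] N => A t) A 0 := A.hasFDerivAt
  have h2 : HasFDerivAt (fun t : D →L[ℂ] N => q + A t) A 0 := by
    exact HasFDerivAt.const_add q h
  refine ⟨A, fun t => rfl, h2.congr_of_eventuallyEq (Filter.Eventually.of_forall fun t => ?_)⟩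
  show q + t c - J (c2.comp t) = q + (t c - J (c2.comp t))
  abel

theorem pr_MK (hDS : StDS) (hEQ : StEQ) : StMK := by
  intro 𝔤 _ _ G _ _ _ _ ι _ _ M _ _ _ B _ _ _ ρ ρV f i0 p hM hV hf j
  obtain ⟨hap, hupd, -, hsl, -⟩ := hDS ι M B f i0 hM
  obtain ⟨J, hJ⟩ := pr_BD (M j)
  have hsep : ∀ u v : M j, (∀ ζ : M j →L[ℂ] ℂ, ζ u = ζ v) → u = v := by
    intro u v h
    by_contra hne
    obtain ⟨l, hl⟩ := SeparatingDual.exists_ne_zero (R := ℂ) (sub_ne_zero.mpr hne)
    exact hl (by rw [map_sub, h l, sub_self])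
  have hE := hEQ 𝔤 G ι M ρ f i0 hM hf
  have hadd : ∀ (x : ∀ i, M i) (h : M j),
      f (Function.update x j (x j + h)) = f x + sA f x j h := by
    intro x h
    have e1 := hap x j (x j + h)
    have e2 := hap x j (x j)
    rw [Function.update_eq_self] at e2
    rw [map_add] at e1
    linear_combination e2 - e1
  let S : Spray ρV (fA f p) (((ρ j).hom (GMod.triv ℂ)).hom (ρ j)) :=
    { s := fun y => (Function.update y.1.1 j (y.1.1 j + y.2 (sA f y.1.1 j) -
        J ((sA f y.1.1 j).comp y.2)), y.1.2)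
      hol := by
        have h0 : Differentiable ℂ (fun y : (∀ i, M i) × B => sA f y.1 j) :=
          Differentiable.comp (g := fun x : ∀ i, M i => sA f x j)
            (f := fun y : (∀ i, M i) × B => y.1) (hsl j) differentiable_fst
        have h1 := IMK.hol2 (X := (∀ i, M i) × B) (D := M j →L[ℂ] ℂ) (N := M j) J
          (fun y => sA f y.1 j) (fun y => sA f y.1 j)
          (fun y => y.1 j) h0 h0
          ((differentiable_pi.1 differentiable_fst) j)
        have h2 := IMK.upd_hol (fun y : ((∀ i, M i) × B) × ((M j →L[ℂ] ℂ) →L[ℂ] M j) => y.1.1) j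
          _ differentiable_fst.fst h1
        exact h2.prodMk differentiable_fst.snd
      zero := by
        rintro ⟨x, z⟩ _
        simp
      maps := by
        rintro ⟨x, z⟩ t hy
        have h2 : f x - p z = 0 := hy
        show f (Function.update x j (x j + t (sA f x j) - J ((sA f x j).comp t))) - p z = 0
        rw [add_sub_assoc, hadd, map_sub, hJ, ContinuousLinearMap.comp_apply]
        linear_combination h2
      equi := by
        rintro g ⟨x, z⟩ t
        have h1 : (((ρ j).hom (GMod.triv ℂ)).hom (ρ j)).act g t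
            (((ρ j).hom (GMod.triv ℂ)).act g (sA f x j)) = (ρ j).act g (t (sA f x j)) := by
          rw [GMod.hom_act, GMod.act_inv_act]
        rw [hV, hV]
        refine Prod.ext ?_ rfl
        show Function.update (fun i => (ρ i).act g (x i)) j ((ρ j).act g (x j) +
          (((ρ j).hom (GMod.triv ℂ)).hom (ρ j)).act g t (sA f (fun i => (ρ i).act g (x i)) j) -
            J ((sA f (fun i => (ρ i).act g (x i)) j).comp
              ((((ρ j).hom (GMod.triv ℂ)).hom (ρ j)).act g t))) =
          fun i => (ρ i).act g (Function.update x j (x j + t (sA f x j) -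
            J ((sA f x j).comp t)) i)
        rw [IMK.upd x j (fun i => (ρ i).act g), hE, h1]
        congr 1
        rw [map_sub, map_add]
        congr 1
        apply hsep
        intro ζ
        rw [hJ, ContinuousLinearMap.comp_apply, GMod.hom_act]
        have h2 : ζ ((ρ j).act g (J ((sA f x j).comp t))) =
            (GMod.triv (𝔤 := 𝔤) (G := G) ℂ).act g
              ((((ρ j).hom (GMod.triv ℂ)).act g⁻¹ ζ) (J ((sA f x j).comp t))) := by
          rw [GMod.hom_act, inv_inv, GMod.act_act_inv]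
        rw [h2, hJ, ContinuousLinearMap.comp_apply, GMod.hom_act, GMod.act_inv_act] }
  refine ⟨(M j →L[ℂ] ℂ) →L[ℂ] M j, inferInstance, inferInstance, inferInstance,
    ((ρ j).hom (GMod.triv ℂ)).hom (ρ j), S, ?_⟩
  rintro ⟨x, z⟩ hy ⟨ξ, b⟩ ⟨hc0, hk, hcm, hb⟩
  obtain ⟨m0, hm0⟩ : ∃ m0 : M j, sA f x j m0 ≠ 0 := by
    by_contra hcon
    push Not at hcon
    exact hc0 (by ext m; simpa using hcon m)
  set c := sA f x j with hcdef
  set m1 : M j := (c m0)⁻¹ • m0 with hm1
  have hcm1 : c m1 = 1 := by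
    rw [hm1, map_smul, smul_eq_mul, inv_mul_cancel₀ hm0]
  let t0 : (M j →L[ℂ] ℂ) →L[ℂ] M j :=
    (ContinuousLinearMap.apply ℂ ℂ m1).smulRight (ξ j)
  have ht0 : ∀ ζ : M j →L[ℂ] ℂ, t0 ζ = ζ m1 • ξ j := fun ζ => rfl
  refine ⟨t0, ?_⟩
  obtain ⟨A, hA, hAd⟩ := IMK.der2 (D := M j →L[ℂ] ℂ) (N := M j) J c c (x j)
  have hfin := IMK.upd_der (E := (M j →L[ℂ] ℂ) →L[ℂ] M j) x z j
    (fun t => x j + t c - J (c.comp t)) A hAd t0
  have hAt : A t0 = ξ j := by
    rw [hA, ht0, hcm1, one_smul]
    have h0 : J (c.comp t0) = 0 := by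
      apply hsep
      intro ζ
      rw [hJ, ContinuousLinearMap.comp_apply, ht0, map_smul, map_zero]
      have : c (ξ j) = 0 := hcm
      rw [this, smul_zero]
    rw [h0, sub_zero]
  rw [hAt] at hfin
  refine hfin.trans (Prod.ext ?_ hb.symm)
  funext i
  by_cases h : i = j
  · subst h
    simp
  · have h4 : ξ i = 0 := hk i h
    simp [Pi.single_eq_of_ne h, h4]

end Pool.Agent.Work.MP_e4a69c_an.AF
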