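import Pool.Agent.Work.MP_e4a69c_an.AF.Stmts

/-! Part AF of theorem DZ (MP_e4a69c_an), item OF: a fixed vector with `f ≠ 0` makes the manifold
G-elliptic. -/

set_option autoImplicit false

namespace Pool.Agent.Work.MP_e4a69c_an.AF

open scoped Manifold ContDiff Topology
open Pool.Agent.Work.MP_e4a69c_an.SU

namespace IOF

/-- A nonzero functional does not vanish at some basis vector. -/
theorem exists_basis {B : Type} [NormedAddCommGroup B] [NormedSpace ℂ B] {n : ℕ}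
    (b : Module.Basis (Fin n) ℂ B) (α : B →L[ℂ] ℂ) (h : α ≠ 0) : ∃ j, α (b j) ≠ 0 := by
  by_contra hcon
  push Not at hcon
  apply h
  have h1 : (α : B →ₗ[ℂ] ℂ) = 0 := b.ext fun j => by
    rw [LinearMap.zero_apply]
    exact hcon j
  ext z
  have := LinearMap.congr_fun h1 z
  simpa using this

end IOF

/-- OF: if `f ≠ 0` at some tuple of fixed vectors then the manifold is G-elliptic. -/
theorem pr_OF (hIS : StIS) (hIE : StIE) (hDS : StDS) (hBA : StBA) : StOF := by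
  intro 𝔤 _ _ G _ _ _ _ ι _ _ M _ _ _ B _ _ _ ρ ρV f i0 p hM hρ hf hp hsm x0 hx0 hfx0
  obtain ⟨-, -, hD3, -, -⟩ := hDS ι M B f i0 hM
  set b := Module.finBasis ℂ B with hb
  have hI : ∀ (c : B) (S : Finset ι), Covers ρV (fA f p) (fun y => {τ | ((∃ j, sA f y.1 j ≠ 0) ∨
      f (fun i => if i ∈ S then y.1 i + (fderiv ℂ p y.2 c) • (x0 i - y.1 i) else y.1 i) ≠ 0) ∧
      fderiv ℂ (fA f p) y τ = 0}) := fun c S =>
    hIS 𝔤 G ι M B ρ ρV f i0 p hM hρ hf hp hsm x0 hx0 c S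
  set e := (Fintype.equivFin (Fin (Module.finrank ℂ B) × Finset ι)).symm with he
  have hF := aCF 𝔤 G _ ρV (fA f p) _ _ (fun k => hI (b (e k).1) (e k).2)
  obtain ⟨W, i1, i2, i3, σ, S, hS⟩ := pr_CC 𝔤 G _ ρV (fA f p) _ _
    (hBA 𝔤 G ι M B ρ ρV f i0 p hM hρ hf hp hsm) hF
  refine ⟨W, i1, i2, i3, σ, S, fun y hy τ hτ => hS y hy τ ?_⟩
  apply Submodule.subset_span
  by_cases hne : ∃ j, sA f y.1 j ≠ 0
  · exact Or.inl ⟨hne, hτ⟩
  · right
    push Not at hne
    have hfx : f y.1 = 0 := by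
      rw [← hD3 y.1, hne i0]
      rfl
    have hpz : p y.2 = 0 := by
      have h6 : f y.1 - p y.2 = 0 := hy
      rw [hfx] at h6
      simpa using h6
    obtain ⟨j, hj⟩ := IOF.exists_basis b (fderiv ℂ p y.2) (hsm _ hpz)
    obtain ⟨S', hS'⟩ : ∃ S' : Finset ι,
        f (fun i => if i ∈ S' then y.1 i + (fderiv ℂ p y.2 (b j)) • (x0 i - y.1 i)
          else y.1 i) ≠ 0 := by
      by_contra hcon
      push Not at hcon
      exact hfx0 (hIE ι M f i0 y.1 x0 (fderiv ℂ p y.2 (b j)) hM hj hcon)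
    rw [Set.mem_iUnion]
    refine ⟨e.symm (j, S'), ?_⟩
    rw [Equiv.apply_symm_apply]
    exact ⟨Or.inr hS', hτ⟩

end Pool.Agent.Work.MP_e4a69c_an.AF
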