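import Pool.Agent.Work.MP_e4a69c_an.AF.Stmts

/-! Block AF, item PH (helper53): the family of automorphisms defined by one slot. -/

set_option autoImplicit false

namespace Pool.Agent.Work.MP_e4a69c_an.AF

open scoped Manifold ContDiff Topology
open Pool.Agent.Work.MP_e4a69c_an.SU

namespace IPH

variable {ι : Type} [Fintype ι] [DecidableEq ι] {M : ι → Type} [∀ i, NormedAddCommGroup (M i)]
  [∀ i, NormedSpace ℂ (M i)] {B : Type} [NormedAddCommGroup B] [NormedSpace ℂ B]

/-- the family of automorphisms -/
noncomputable def ph (f : (∀ i, M i) → ℂ) (p : B → ℂ) (j : ι) (b : B)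
    (y : ((∀ i, M i) × B) × M j) : (∀ i, M i) × B :=
  (Function.update y.1.1 j (y.1.1 j + (qq p y.1.2 (sA f y.1.1 j y.2 • b) b) • y.2),
    y.1.2 + sA f y.1.1 j y.2 • b)

theorem ph_mk (f : (∀ i, M i) → ℂ) (p : B → ℂ) (j : ι) (b : B) (x : ∀ i, M i) (z : B) (a : M j) :
    ph f p j b ((x, z), a) =
      (Function.update x j (x j + (qq p z (sA f x j a • b) b) • a), z + sA f x j a • b) := rfl

theorem diff_update {E : Type} [NormedAddCommGroup E] [NormedSpace ℂ E] (j : ι)
    (a : E → ∀ i, M i) (c : E → M j) (ha : Differentiable ℂ a) (hc : Differentiable ℂ c) :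
    Differentiable ℂ (fun y => Function.update (a y) j (c y)) := by
  rw [differentiable_pi]
  intro i
  by_cases h : i = j
  · subst h
    simpa using hc
  · have h2 := (differentiable_pi.1 ha) i
    have h3 : (fun y => Function.update (a y) j (c y) i) = fun y => a y i := by
      funext y
      exact Function.update_of_ne h _ _
    rw [h3]
    exact h2

theorem diff [∀ i, FiniteDimensional ℂ (M i)] [FiniteDimensional ℂ B] (hDS : StDS)
    (f : (∀ i, M i) → ℂ) (i0 : ι) (hM : MAff f i0) (p : B → ℂ)
    (hp : Differentiable ℂ p) (j : ι) (b : B) : Differentiable ℂ (ph f p j b) := by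
  obtain ⟨-, -, -, d4, -⟩ := hDS ι M B f i0 hM
  have h0 : Differentiable ℂ (fun y : ((∀ i, M i) × B) × M j => y.1.1) :=
    differentiable_fst.comp differentiable_fst
  have h00 : Differentiable ℂ (fun y : ((∀ i, M i) × B) × M j => y.1.2) :=
    differentiable_snd.comp differentiable_fst
  have h1 : Differentiable ℂ (fun y : ((∀ i, M i) × B) × M j => sA f y.1.1 j y.2) :=
    ((d4 j).comp h0).clm_apply differentiable_snd
  have h4 : Differentiable ℂ (fun y : ((∀ i, M i) × B) × M j => sA f y.1.1 j y.2 • b) :=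
    h1.smul_const b
  have h5 : Differentiable ℂ
      (fun y : ((∀ i, M i) × B) × M j => (y.1.2, sA f y.1.1 j y.2 • b)) := h00.prodMk h4
  have h6 : Differentiable ℂ
      (fun y : ((∀ i, M i) × B) × M j => qq p y.1.2 (sA f y.1.1 j y.2 • b)) :=
    (aQD B p hp).comp h5
  have h7 : Differentiable ℂ
      (fun y : ((∀ i, M i) × B) × M j => qq p y.1.2 (sA f y.1.1 j y.2 • b) b) :=
    h6.clm_apply (differentiable_const b)
  have h8 : Differentiable ℂ (fun y : ((∀ i, M i) × B) × M j => y.1.1 j) :=
    (differentiable_pi.1 h0) j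
  exact (diff_update j (fun y : ((∀ i, M i) × B) × M j => y.1.1) _ h0
    (h8.add (h7.smul differentiable_snd))).prodMk (h00.add h4)

end IPH

open IPH in
theorem pr_PH (hDS : StDS) (hEQ : StEQ) : StPH := by
  intro 𝔤 _ _ G _ _ _ _ ι _ _ M _ _ _ B _ _ _ ρ ρV f i0 p hM hV hf hp j b
  obtain ⟨h1, h2, h3⟩ := aQH B p hp
  obtain ⟨d1, d2, -, -, -⟩ := hDS ι M B f i0 hM
  refine ⟨ph f p j b, diff hDS f i0 hM p hp j b, ?_, ?_, ?_, ?_⟩
  · rintro ⟨x, z⟩ a
    have h := h3 z (sA f x j a • b)
    have hs : sA f (Function.update x j (x j + (qq p z (sA f x j a • b) b) • a)) j = sA f x j :=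
      d2 x j _
    show ph f p j b ((Function.update x j (x j + (qq p z (sA f x j a • b) b) • a),
      z + sA f x j a • b), -a) = (x, z)
    rw [ph_mk, hs, Function.update_self, Function.update_idem, map_neg]
    simp only [neg_smul]
    rw [h, smul_neg, add_neg_cancel_right, add_neg_cancel_right, Function.update_eq_self]
  · rintro ⟨x, z⟩ a
    have h := h1 z (sA f x j a • b)
    rw [map_smul, smul_eq_mul] at h
    have e1 := d1 x j (x j + (qq p z (sA f x j a • b) b) • a)
    have e2 := d1 x j (x j)
    rw [Function.update_eq_self] at e2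
    rw [map_add, map_smul, smul_eq_mul] at e1
    rw [ph_mk]
    show f (Function.update x j (x j + (qq p z (sA f x j a • b) b) • a)) -
      p (z + sA f x j a • b) = f x - p z
    linear_combination h - e1 + e2
  · rintro g ⟨x, z⟩ a
    have hu : ∀ m : M j, Function.update (fun i => (ρ i).act g (x i)) j ((ρ j).act g m) =
        fun i => (ρ i).act g (Function.update x j m i) := by
      intro m
      funext i
      by_cases hi : i = j
      · subst hi
        simp
      · rw [Function.update_of_ne hi, Function.update_of_ne hi]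
    have hx : sA f (fun i => (ρ i).act g (x i)) j ((ρ j).act g a) = sA f x j a := by
      rw [hEQ 𝔤 G ι M ρ f i0 hM hf g x j, GMod.hom_act, GMod.act_inv_act, GMod.triv_act]
    rw [hV, hV]
    show ph f p j b (((fun i => (ρ i).act g (x i)), z), (ρ j).act g a) =
      ((fun i => (ρ i).act g ((ph f p j b ((x, z), a)).1 i)), (ph f p j b ((x, z), a)).2)
    rw [ph_mk, ph_mk, hx, ← hu, map_add, map_smul]
  · rintro ⟨x, z⟩ a hy
    have hy' : sA f x j a = 0 := by
      have : sA f x j = 0 := hy
      rw [this]; rfl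
    rw [ph_mk]
    show (Function.update x j (x j + (qq p z (sA f x j a • b) b) • a), z + sA f x j a • b) =
      (Function.update x j (x j + (fderiv ℂ p z b) • a), z)
    rw [hy', zero_smul, add_zero, h2]

end Pool.Agent.Work.MP_e4a69c_an.AF
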