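import Pool.Agent.Work.MP_e4a69c_an.AF.Stmts

/-! Item TH of block AF (MP_e4a69c_an): the entire function `(e^c - 1)/c`. -/

set_option autoImplicit false

namespace Pool.Agent.Work.MP_e4a69c_an.AF

open scoped Manifold ContDiff Topology
open Pool.Agent.Work.MP_e4a69c_an.SU

theorem pr_TH : StTH := by
  refine ⟨dslope Complex.exp 0, ?_, fun c => ?_, ?_⟩
  · have h := (Complex.differentiableOn_dslope (f := Complex.exp) (s := Set.univ) (c := (0 : ℂ))
      Filter.univ_mem).2 Complex.differentiable_exp.differentiableOn
    exact differentiableOn_univ.1 h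
  · have h := sub_smul_dslope Complex.exp 0 c
    rw [sub_zero, Complex.exp_zero, smul_eq_mul] at h
    exact h
  · rw [dslope_same, Complex.deriv_exp, Complex.exp_zero]

end Pool.Agent.Work.MP_e4a69c_an.AF
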