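import Pool.Agent.Work.MP_e4a69c_an.AF.I_DS
import Pool.Agent.Work.MP_e4a69c_an.AF.I_EQ
import Pool.Agent.Work.MP_e4a69c_an.AF.I_MI
import Pool.Agent.Work.MP_e4a69c_an.AF.I_MK
import Pool.Agent.Work.MP_e4a69c_an.AF.I_TH
import Pool.Agent.Work.MP_e4a69c_an.AF.I_ME
import Pool.Agent.Work.MP_e4a69c_an.AF.I_LA
import Pool.Agent.Work.MP_e4a69c_an.AF.I_BA
import Pool.Agent.Work.MP_e4a69c_an.AF.I_MZ
import Pool.Agent.Work.MP_e4a69c_an.AF.I_AA
import Pool.Agent.Work.MP_e4a69c_an.AF.I_PC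
import Pool.Agent.Work.MP_e4a69c_an.AF.I_PH
import Pool.Agent.Work.MP_e4a69c_an.AF.I_IE
import Pool.Agent.Work.MP_e4a69c_an.AF.I_IS
import Pool.Agent.Work.MP_e4a69c_an.AF.I_OF

/-! Assembly of part AF. -/

set_option autoImplicit false

namespace Pool.Agent.Work.MP_e4a69c_an.AF

open scoped Manifold ContDiff Topology
open Pool.Agent.Work.MP_e4a69c_an.SU

theorem fEQ : StEQ := pr_EQ pr_DS
theorem fMI : StMI := pr_MI pr_DS fEQ
theorem fMK : StMK := pr_MK pr_DS fEQ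
theorem fME : StME := pr_ME pr_DS fEQ pr_TH
theorem fLA : StLA := pr_LA pr_DS
theorem fBA : StBA := pr_BA fMI fMK fME fLA pr_DS
theorem fMZ : StMZ := pr_MZ pr_DS
theorem fAA : StAA := pr_AA fBA fMI fMZ pr_DS
theorem fPH : StPH := pr_PH pr_DS fEQ
theorem fIS : StIS := pr_IS fBA pr_PC fPH pr_DS
theorem fOF : StOF := pr_OF fIS pr_IE pr_DS fBA

end Pool.Agent.Work.MP_e4a69c_an.AF
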