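import Pool.Agent.Work.MP_e4a69c_an.AF.Stmts

/-! Theorem AF, item DS: the slopes of a function which is affine in every slot. -/

set_option autoImplicit false

namespace Pool.Agent.Work.MP_e4a69c_an.AF

open scoped Manifold ContDiff Topology
open Pool.Agent.Work.MP_e4a69c_an.SU

namespace IDS

section

variable {ι : Type} [Fintype ι] [DecidableEq ι] {M : ι → Type} [∀ i, NormedAddCommGroup (M i)]
  [∀ i, NormedSpace ℂ (M i)]

omit [Fintype ι] in
theorem line_eq (x : ∀ i, M i) (j : ι) (m : M j) (t : ℂ) :
    x + t • (Pi.single j m : ∀ i, M i) = Function.update x j (x j + t • m) := by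
  funext i
  by_cases h : i = j
  · subst h
    simp
  · simp [Function.update_of_ne h, Pi.single_eq_of_ne h]

theorem slope {f : (∀ i, M i) → ℂ} {i0 : ι} (hf : MAff f i0) (x : ∀ i, M i) (j : ι) (m : M j) :
    sA f x j m = f (Function.update x j m) - f (Function.update x j 0) := by
  have h1 : HasDerivAt (fun t : ℂ => f (x + t • (Pi.single j m : ∀ i, M i)))
      (fderiv ℂ f x (Pi.single j m)) 0 := (hf.hol x).hasFDerivAt.hasLineDerivAt _
  have hl := hf.aff x j
  have e : (fun t : ℂ => f (x + t • (Pi.single j m : ∀ i, M i))) = fun t : ℂ =>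
      (f (Function.update x j 0) + (f (Function.update x j (x j)) - f (Function.update x j 0))) +
        t * (f (Function.update x j m) - f (Function.update x j 0)) := by
    funext t
    rw [line_eq]
    have h2 := hl.map_add (x j) (t • m)
    have h3 := hl.map_smul t m
    simp only [smul_eq_mul] at h2 h3
    rw [h3] at h2
    linear_combination h2
  rw [e] at h1
  have h2 : HasDerivAt (fun t : ℂ =>
      (f (Function.update x j 0) + (f (Function.update x j (x j)) - f (Function.update x j 0))) +
        t * (f (Function.update x j m) - f (Function.update x j 0)))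
      (f (Function.update x j m) - f (Function.update x j 0)) 0 := by
    have h3 := ((hasDerivAt_id (0 : ℂ)).mul_const
      (f (Function.update x j m) - f (Function.update x j 0))).const_add
      (f (Function.update x j 0) + (f (Function.update x j (x j)) - f (Function.update x j 0)))
    rw [one_mul] at h3
    exact h3
  have h3 : fderiv ℂ f x (Pi.single j m) = _ := h1.unique h2
  exact h3

end

end IDS

theorem pr_DS : StDS := by
  intro ι _ _ M _ _ _ B _ _ f i0 hf
  refine ⟨IDS.slope hf, ?_, ?_, ?_, ?_⟩
  · intro x j m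
    ext m'
    rw [IDS.slope hf, IDS.slope hf, Function.update_idem, Function.update_idem]
  · intro x
    rw [IDS.slope hf, Function.update_eq_self, hf.lin, sub_zero]
  · intro j
    exact (pr_GO _ _ f hf.hol).clm_comp (differentiable_const _)
  · intro p hp
    have hd : ∀ y : (∀ i, M i) × B, HasFDerivAt (fA f p)
        ((fderiv ℂ f y.1).comp (ContinuousLinearMap.fst ℂ (∀ i, M i) B) -
          (fderiv ℂ p y.2).comp (ContinuousLinearMap.snd ℂ (∀ i, M i) B)) y := by
      intro y
      have h1 : HasFDerivAt (fun y : (∀ i, M i) × B => f y.1)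
          ((fderiv ℂ f y.1).comp (ContinuousLinearMap.fst ℂ (∀ i, M i) B)) y :=
        (hf.hol y.1).hasFDerivAt.comp y hasFDerivAt_fst
      have h2 : HasFDerivAt (fun y : (∀ i, M i) × B => p y.2)
          ((fderiv ℂ p y.2).comp (ContinuousLinearMap.snd ℂ (∀ i, M i) B)) y :=
        (hp y.2).hasFDerivAt.comp y hasFDerivAt_snd
      exact h1.sub h2
    refine ⟨fun y => (hd y).differentiableAt, fun y τ => ?_⟩
    rw [(hd y).fderiv]
    have e1 : fderiv ℂ f y.1 τ.1 = ∑ j, sA f y.1 j (τ.1 j) := by
      have e2 : (∑ j, (Pi.single j (τ.1 j) : ∀ i, M i)) = τ.1 := Finset.univ_sum_single τ.1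
      rw [← e2, map_sum, e2]
      exact Finset.sum_congr rfl fun j _ => rfl
    rw [← e1]
    rfl

end Pool.Agent.Work.MP_e4a69c_an.AF
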