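import Pool.Agent.Work.MP_e4a69c_an.AF.Stmts

set_option autoImplicit false

namespace Pool.Agent.Work.MP_e4a69c_an.AF

open scoped Manifold ContDiff Topology
open Pool.Agent.Work.MP_e4a69c_an.SU

theorem pr_PC : StPC := by
  intro 𝔤 _ _ G _ _ _ V H _ _ _ _ ρ ρH F Ψ A hΨ hA hinv hF heq hAeq R hR
  obtain ⟨W, i1, j1, k1, σ, S, d⟩ := hR
  let S' : Spray ρ F σ :=
    { s := fun x => Ψ (S.s (Ψ (x.1, A x.1), x.2), -A x.1)
      hol := by
        have h1 : Differentiable ℂ (fun x : V × W => Ψ (x.1, A x.1)) :=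
          hΨ.comp (differentiable_fst.prodMk (hA.comp differentiable_fst))
        have h2 : Differentiable ℂ (fun x : V × W => S.s (Ψ (x.1, A x.1), x.2)) :=
          S.hol.comp (h1.prodMk differentiable_snd)
        exact hΨ.comp (h2.prodMk (hA.comp differentiable_fst).neg)
      zero := by
        intro y hy
        show Ψ (S.s (Ψ (y, A y), 0), -A y) = y
        rw [S.zero (Ψ (y, A y)) (by rw [hF]; exact hy), hinv]
      maps := by
        intro y w hy
        show F (Ψ (S.s (Ψ (y, A y), w), -A y)) = 0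
        rw [hF]
        exact S.maps _ _ (by rw [hF]; exact hy)
      equi := by
        intro g y w
        show Ψ (S.s (Ψ (ρ.act g y, A (ρ.act g y)), σ.act g w), -A (ρ.act g y)) =
          ρ.act g (Ψ (S.s (Ψ (y, A y), w), -A y))
        rw [hAeq, heq, S.equi, ← map_neg, heq] }
  refine ⟨W, i1, j1, k1, σ, S', ?_⟩
  intro y hy τ hτ
  have hτ' : fderiv ℂ (fun u => Ψ (u, A y)) y τ ∈ R (Ψ (y, A y)) := hτ
  have hy' : F (Ψ (y, A y)) = 0 := by rw [hF]; exact hy
  obtain ⟨w, hw⟩ := d (Ψ (y, A y)) hy' _ hτ'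
  refine ⟨w, ?_⟩
  have hφ : Differentiable ℂ (fun u => Ψ (u, A y)) :=
    hΨ.comp (differentiable_id.prodMk (differentiable_const (A y)))
  have hψ : Differentiable ℂ (fun u => Ψ (u, -A y)) :=
    hΨ.comp (differentiable_id.prodMk (differentiable_const (-A y)))
  have hd : HasFDerivAt (fun w : W => S.s (Ψ (y, A y), w))
      (fderiv ℂ (fun w : W => S.s (Ψ (y, A y), w)) 0) 0 := by
    apply DifferentiableAt.hasFDerivAt
    exact (S.hol.comp ((differentiable_const (Ψ (y, A y))).prodMk differentiable_id)) 0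
  have hd2 : HasFDerivAt (fun u => Ψ (u, -A y)) (fderiv ℂ (fun u => Ψ (u, -A y)) (Ψ (y, A y)))
      (S.s (Ψ (y, A y), 0)) := by
    rw [S.zero (Ψ (y, A y)) hy']
    exact (hψ (Ψ (y, A y))).hasFDerivAt
  have hc : HasFDerivAt (fun w : W => S'.s (y, w))
      ((fderiv ℂ (fun u => Ψ (u, -A y)) (Ψ (y, A y))).comp
        (fderiv ℂ (fun w : W => S.s (Ψ (y, A y), w)) 0)) 0 :=
    HasFDerivAt.comp (0 : W) (g := fun u => Ψ (u, -A y))
      (f := fun w : W => S.s (Ψ (y, A y), w)) hd2 hd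
  rw [hc.fderiv]
  show fderiv ℂ (fun u => Ψ (u, -A y)) (Ψ (y, A y))
    (fderiv ℂ (fun w : W => S.s (Ψ (y, A y), w)) 0 w) = τ
  rw [hw]
  have h3 : HasFDerivAt (fun v => (fun u => Ψ (u, -A y)) ((fun u => Ψ (u, A y)) v))
      ((fderiv ℂ (fun u => Ψ (u, -A y)) (Ψ (y, A y))).comp
        (fderiv ℂ (fun u => Ψ (u, A y)) y)) y :=
    HasFDerivAt.comp y (g := fun u => Ψ (u, -A y)) (f := fun u => Ψ (u, A y))
      (hψ (Ψ (y, A y))).hasFDerivAt (hφ y).hasFDerivAt
  have h4 : (fun v => (fun u => Ψ (u, -A y)) ((fun u => Ψ (u, A y)) v)) = id := by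
    funext u
    exact hinv u (A y)
  rw [h4] at h3
  have h5 := h3.unique (hasFDerivAt_id y)
  have h6 : (fderiv ℂ (fun u => Ψ (u, -A y)) (Ψ (y, A y))).comp
      (fderiv ℂ (fun u => Ψ (u, A y)) y) τ = ContinuousLinearMap.id ℂ V τ := by rw [h5]
  exact h6

end Pool.Agent.Work.MP_e4a69c_an.AF
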