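import Pool.Agent.Work.MP_e4a69c_an.AF.Defs

/-! Items of part AF of theorem DZ (MP_e4a69c_an): the block ML for functions which are affine in every
slot and linear in one slot `i0`. Every docstring is a complete proof. Notation: `V = (Π M_i) × B`,
`y = (x,z)`, `F = fA f p`, `F(x,z) = f(x) - p(z)`, `c_j = sA f x j`; it does not depend on `x j`. `B` and the
values of `f` have the trivial action. Proved lemmas of the block SU may be used (`aGO`-type names: see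
SU/All.lean, `pr_GO aQD aQH aGD aCF pr_CC pr_CJ pr_DN pr_BD`). Most items are copies of the items of the
same name of ML (`ML/I_XX.lean`). -/

set_option autoImplicit false

namespace Pool.Agent.Work.MP_e4a69c_an.AF

open scoped Manifold ContDiff Topology
open Pool.Agent.Work.MP_e4a69c_an.SU

/-- DS. PROOF. `sA f x j m = fderiv ℂ f x (single j m)` is the derivative at `t = 0` of
`t ↦ f(update x j (x j + t m))`, and by `aff` `f(update x j m') = f(update x j 0) + ℓ(m')` with `ℓ` linear, so it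
is `ℓ(m) = f(update x j m) - f(update x j 0)`. The first assertion: `Function.update_idem`. The second:
`fderiv ℂ f` is entire (`pr_GO`), composition with a fixed map. Third: `h = ∑ single i (h i)`
(`ContinuousLinearMap.sum_comp_single` or `Finset.univ_sum_single`). Fourth: chain rule. -/
def StDS : Prop := ∀ (ι : Type) [Fintype ι] [DecidableEq ι] (M : ι → Type)
  [∀ i, NormedAddCommGroup (M i)] [∀ i, NormedSpace ℂ (M i)] [∀ i, FiniteDimensional ℂ (M i)]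
  (B : Type) [NormedAddCommGroup B] [NormedSpace ℂ B] (f : (∀ i, M i) → ℂ) (i0 : ι), MAff f i0 →
  (∀ x j m, sA f x j m = f (Function.update x j m) - f (Function.update x j 0)) ∧
  (∀ x j m, sA f (Function.update x j m) j = sA f x j) ∧
  (∀ x, sA f x i0 (x i0) = f x) ∧
  (∀ j, Differentiable ℂ (fun x => sA f x j)) ∧
  (∀ p : B → ℂ, Differentiable ℂ p → Differentiable ℂ (fA f p) ∧
    ∀ y τ, fderiv ℂ (fA f p) y τ = ∑ j, sA f y.1 j (τ.1 j) - fderiv ℂ p y.2 τ.2)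

/-- EQ. PROOF (with DS). `m' = (ρ j)(g⁻¹) m`; `update (g x) j m = g (update x j m')` (coordinate by
coordinate), `update (g x) j 0 = g (update x j 0)`, and `f(g u) = f(u)`. -/
def StEQ : Prop := ∀ (𝔤 : Type) [NormedAddCommGroup 𝔤] [NormedSpace ℂ 𝔤]
  (G : Type) [TopologicalSpace G] [ChartedSpace 𝔤 G] [Group G] [LieGroup 𝓘(ℂ, 𝔤) ω G]
  (ι : Type) [Fintype ι] [DecidableEq ι] (M : ι → Type)
  [∀ i, NormedAddCommGroup (M i)] [∀ i, NormedSpace ℂ (M i)] [∀ i, FiniteDimensional ℂ (M i)]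
  (ρ : ∀ i, GMod 𝔤 G (M i)) (f : (∀ i, M i) → ℂ) (i0 : ι), MAff f i0 →
    (∀ g x, f (fun i => (ρ i).act g (x i)) = f x) →
    ∀ g x j, sA f (fun i => (ρ i).act g (x i)) j =
      ((ρ j).hom (GMod.triv ℂ)).act g (sA f x j)

/-- MI (shear in the slot `j`). PROOF (with DS, EQ). As ML/I_MI.lean with `ρL`, `ρB` trivial.
`W = (M j →L[ℂ] ℂ) →L[ℂ] B` with `((ρ j).hom (GMod.triv ℂ)).hom (GMod.triv B)`, `c = sA f x j`,
`s((x,z),t) = (update x j (x j + J((qq p z (t c)) ∘ t)), z + t c)`. `F` is preserved: by DS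
`f(update x j (x j + h)) = f x + c(h)`, `c(J(...)) = qq p z (t c) (t c) = p(z + t c) - p z`. Equivariance:
`c(g x) = g c(x)`, `(g t)(g c) = t c`, and `J((qq p z b) ∘ (g t)) = g J((qq p z b) ∘ t)`: for every `ζ`,
`qq p z b (t (g⁻¹ ζ)) = (g⁻¹ ζ)(J(qq ∘ t)) = ζ(g J(qq ∘ t))`. Derivative in `t` at `0`: in the slot `j` it is
`J(dp(z) ∘ t)`, `0` in the other slots, and `t c` in `B`. -/
def StMI : Prop := ∀ (𝔤 : Type) [NormedAddCommGroup 𝔤] [NormedSpace ℂ 𝔤]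
  (G : Type) [TopologicalSpace G] [ChartedSpace 𝔤 G] [Group G] [LieGroup 𝓘(ℂ, 𝔤) ω G]
  (ι : Type) [Fintype ι] [DecidableEq ι] (M : ι → Type)
  [∀ i, NormedAddCommGroup (M i)] [∀ i, NormedSpace ℂ (M i)] [∀ i, FiniteDimensional ℂ (M i)]
  (B : Type) [NormedAddCommGroup B] [NormedSpace ℂ B] [FiniteDimensional ℂ B]
  (ρ : ∀ i, GMod 𝔤 G (M i)) (ρV : GMod 𝔤 G ((∀ i, M i) × B)) (f : (∀ i, M i) → ℂ) (i0 : ι)
  (p : B → ℂ), MAff f i0 →
    (∀ g y, ρV.act g y = (fun i => (ρ i).act g (y.1 i), y.2)) →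
    (∀ g x, f (fun i => (ρ i).act g (x i)) = f x) → Differentiable ℂ p →
    ∀ j, Covers ρV (fA f p) (fun y => RI f (fderiv ℂ p y.2) j y.1)

/-- MK (skew sprays in the slot `j`). PROOF (with DS, EQ). As ML/I_MK.lean with `ρL` trivial.
`W = (M j →L[ℂ] ℂ) →L[ℂ] M j` with `((ρ j).hom (GMod.triv ℂ)).hom (ρ j)`,
`s((x,z),t) = (update x j (x j + t c - J(c ∘ t)), z)`, `c = sA f x j`; `c(t c) - c(J(c ∘ t)) = 0`, so `f` is
preserved. If `c ≠ 0` and `c(m) = 0`: choose `m0` with `c(m0) = 1`, `t(ζ) = ζ(m0) m`. -/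
def StMK : Prop := ∀ (𝔤 : Type) [NormedAddCommGroup 𝔤] [NormedSpace ℂ 𝔤]
  (G : Type) [TopologicalSpace G] [ChartedSpace 𝔤 G] [Group G] [LieGroup 𝓘(ℂ, 𝔤) ω G]
  (ι : Type) [Fintype ι] [DecidableEq ι] (M : ι → Type)
  [∀ i, NormedAddCommGroup (M i)] [∀ i, NormedSpace ℂ (M i)] [∀ i, FiniteDimensional ℂ (M i)]
  (B : Type) [NormedAddCommGroup B] [NormedSpace ℂ B] [FiniteDimensional ℂ B]
  (ρ : ∀ i, GMod 𝔤 G (M i)) (ρV : GMod 𝔤 G ((∀ i, M i) × B)) (f : (∀ i, M i) → ℂ) (i0 : ι)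
  (p : B → ℂ), MAff f i0 →
    (∀ g y, ρV.act g y = (fun i => (ρ i).act g (y.1 i), y.2)) →
    (∀ g x, f (fun i => (ρ i).act g (x i)) = f x) →
    ∀ j, Covers ρV (fA f p) (fun y => RK f j y.1)

/-- TH (the function `(e^c - 1)/c`). PROOF. `θ = dslope Complex.exp 0`: `c θ(c) = exp c - exp 0`
(`sub_smul_dslope`), entire (`Differentiable` of `dslope` at a point: `DifferentiableOn.dslope`-type lemma
`Complex.differentiableOn_dslope`, or the removable singularity theorem), `θ(0) = deriv exp 0 = 1`. -/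
def StTH : Prop := ∃ θ : ℂ → ℂ, Differentiable ℂ θ ∧ (∀ c, c * θ c = Complex.exp c - 1) ∧ θ 0 = 1

/-- ME (exponential sprays in the slots `j ≠ i0`). PROOF (with DS, EQ, TH). For `j = i0` the set `RE` is
empty: the constant spray on `W = ℂ` (trivial module), `s(y,w) = y`. For `j ≠ i0`: `W = M j`, module `ρ j`,
`c = sA f x j u`, `s((x,z),u) = (update (update x j (x j + (f x * θ c) • u)) i0 (e^(-c) • x i0), z)`.
`f` of it: let `x' = update x j (x j + (f x θ c) u)`; `f x' = f x + (f x θ c) c = f x e^c` (DS, TH); and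
`f(update x' i0 (e^(-c) x' i0)) = e^(-c) f x'` (linear in the slot `i0`: DS), `x' i0 = x i0`. So `f` is
preserved. Equivariance: `sA f (g x) j (g u) = sA f x j u` (EQ), `f(g x) = f x`. `s(y,0) = y`: `e^0 = 1`.
Derivative in `u` at `0`: in the slot `j` `(f x) u` (`θ(0) = 1`; product with a factor vanishing at `0`), in the
slot `i0` `-(c(u)) x i0`, `0` elsewhere. -/
def StME : Prop := ∀ (𝔤 : Type) [NormedAddCommGroup 𝔤] [NormedSpace ℂ 𝔤]
  (G : Type) [TopologicalSpace G] [ChartedSpace 𝔤 G] [Group G] [LieGroup 𝓘(ℂ, 𝔤) ω G]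
  (ι : Type) [Fintype ι] [DecidableEq ι] (M : ι → Type)
  [∀ i, NormedAddCommGroup (M i)] [∀ i, NormedSpace ℂ (M i)] [∀ i, FiniteDimensional ℂ (M i)]
  (B : Type) [NormedAddCommGroup B] [NormedSpace ℂ B] [FiniteDimensional ℂ B]
  (ρ : ∀ i, GMod 𝔤 G (M i)) (ρV : GMod 𝔤 G ((∀ i, M i) × B)) (f : (∀ i, M i) → ℂ) (i0 : ι)
  (p : B → ℂ), MAff f i0 →
    (∀ g y, ρV.act g y = (fun i => (ρ i).act g (y.1 i), y.2)) →
    (∀ g x, f (fun i => (ρ i).act g (x i)) = f x) →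
    ∀ j, Covers ρV (fA f p) (fun y => RE f i0 j y.1)

/-- LA (linear algebra where some slope is not zero). PROOF (with DS). Let `S` be the span,
`c_k = sA f x k`. Write `δ_k m` for the vector with `m` in the slot `k` and `0` elsewhere. Case `α ≠ 0`,
`α b0 = 1`: word for word as in ML (LA, case `α ≠ 0`): (i) if `c_k = 0` then `(δ_k m, 0) ∈ RI k` for all `m`:
`t ζ = ζ(m) b0`. (ii) If `c_k ≠ 0`, `c_k(m0) = 1`, and `c_k(m) = α(b)`, then `(δ_k m, b) ∈ S`: `t ζ = ζ(m0) b` gives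
`(δ_k (α(b) m0), b) ∈ RI k`, and `m - α(b) m0 ∈ ker c_k`, `(δ_k (m - α(b) m0), 0) ∈ RK k`. Now `τ = (ξ,b)`: for
`k ≠ j0` put `b_k = c_k(ξ_k) b0`; `(δ_k ξ_k, b_k) ∈ S` (`b_k = 0` if `c_k = 0`), and
`(δ_{j0} ξ_{j0}, b - ∑_{k ≠ j0} b_k) ∈ S` by (ii). Case `α = 0`: then `f x ≠ 0`, and `c_{i0}(x_{i0}) = f x ≠ 0` (DS).
`(0,b) ∈ RI i0`: `t ζ = ζ(m0) b` with `c_{i0}(m0) = 1`. For `j ≠ i0` and `u = (f x)⁻¹ ξ_j`:
`(δ_j ξ_j - δ_{i0} (c_j(u) x_{i0}), 0) ∈ RE i0 j`. What remains is `(δ_{i0} m, 0)` with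
`m = ξ_{i0} + ∑_{j ≠ i0} c_j((f x)⁻¹ ξ_j) x_{i0}`, `c_{i0}(m) = c_{i0}(ξ_{i0}) + ∑_{j ≠ i0} c_j(ξ_j) = 0`: `RK i0`. -/
def StLA : Prop := ∀ (ι : Type) [Fintype ι] [DecidableEq ι] (M : ι → Type)
  [∀ i, NormedAddCommGroup (M i)] [∀ i, NormedSpace ℂ (M i)] [∀ i, FiniteDimensional ℂ (M i)]
  (B : Type) [NormedAddCommGroup B] [NormedSpace ℂ B]
  (f : (∀ i, M i) → ℂ) (i0 : ι) (α : B →L[ℂ] ℂ) (x : ∀ i, M i) (j0 : ι), MAff f i0 →
    sA f x j0 ≠ 0 → (f x = 0 → α ≠ 0) →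
    ∀ τ : (∀ i, M i) × B, ∑ j, sA f x j (τ.1 j) = α τ.2 →
      τ ∈ Submodule.span ℂ ((⋃ j, RI f α j x) ∪ (⋃ j, RK f j x) ∪ (⋃ j, RE f i0 j x))

/-- BA (base spray). PROOF (with MI, MK, ME, LA, DS; CC, CF of SU). As ML/I_BA.lean. At `y = (x,z)` with
`F y = 0`, `sA f x j ≠ 0`, apply LA with `α = dp(z)`: if `f x = 0` then `p z = 0` so `dp(z) ≠ 0`. -/
def StBA : Prop := ∀ (𝔤 : Type) [NormedAddCommGroup 𝔤] [NormedSpace ℂ 𝔤]
  (G : Type) [TopologicalSpace G] [ChartedSpace 𝔤 G] [Group G] [LieGroup 𝓘(ℂ, 𝔤) ω G]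
  (ι : Type) [Fintype ι] [DecidableEq ι] (M : ι → Type)
  [∀ i, NormedAddCommGroup (M i)] [∀ i, NormedSpace ℂ (M i)] [∀ i, FiniteDimensional ℂ (M i)]
  (B : Type) [NormedAddCommGroup B] [NormedSpace ℂ B] [FiniteDimensional ℂ B]
  (ρ : ∀ i, GMod 𝔤 G (M i)) (ρV : GMod 𝔤 G ((∀ i, M i) × B)) (f : (∀ i, M i) → ℂ) (i0 : ι)
  (p : B → ℂ), MAff f i0 →
    (∀ g y, ρV.act g y = (fun i => (ρ i).act g (y.1 i), y.2)) →
    (∀ g x, f (fun i => (ρ i).act g (x i)) = f x) → Differentiable ℂ p →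
    (∀ z, p z = 0 → fderiv ℂ p z ≠ 0) →
    Covers ρV (fA f p) (fun y => {τ | (∃ j, sA f y.1 j ≠ 0) ∧ fderiv ℂ (fA f p) y τ = 0})

/-- MZ (lift of a spray of `C = {p = 0}` to the slot `i0`). PROOF (GD, DN of SU). As ML/I_MZ.lean: entire
equivariant `Z1`, `Z1(z,0) = z`, and entire `a` with `p(Z1(z,w)) = a(z,w) p(z)`, `a(z,0) = 1`,
`a(z,g w) = a(z,w)`. Spray on `W`: `s((x,z),w) = (update x i0 (a(z,w) x_{i0}), Z1(z,w))`; `f(new x) = a f(x)`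
because `f` is linear in the slot `i0` (DS). Velocity at `p z = 0`, `dp(z) b = 0`: `b` in the component `B`, `0` in
the slots `≠ i0`. -/
def StMZ : Prop := ∀ (𝔤 : Type) [NormedAddCommGroup 𝔤] [NormedSpace ℂ 𝔤]
  (G : Type) [TopologicalSpace G] [ChartedSpace 𝔤 G] [Group G] [LieGroup 𝓘(ℂ, 𝔤) ω G]
  (ι : Type) [Fintype ι] [DecidableEq ι] (M : ι → Type)
  [∀ i, NormedAddCommGroup (M i)] [∀ i, NormedSpace ℂ (M i)] [∀ i, FiniteDimensional ℂ (M i)]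
  (B : Type) [NormedAddCommGroup B] [NormedSpace ℂ B] [FiniteDimensional ℂ B]
  (ρ : ∀ i, GMod 𝔤 G (M i)) (ρV : GMod 𝔤 G ((∀ i, M i) × B)) (f : (∀ i, M i) → ℂ) (i0 : ι)
  (p : B → ℂ), MAff f i0 →
    (∀ g y, ρV.act g y = (fun i => (ρ i).act g (y.1 i), y.2)) → Differentiable ℂ p →
    (∀ z, p z = 0 → fderiv ℂ p z ≠ 0) → GElliptic (GMod.triv (𝔤 := 𝔤) (G := G) B) p →
    ∃ (W : Type) (_ : NormedAddCommGroup W) (_ : NormedSpace ℂ W) (_ : FiniteDimensional ℂ W)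
      (σ : GMod 𝔤 G W) (S : Spray ρV (fA f p) σ),
      ∀ y : (∀ i, M i) × B, fA f p y = 0 → p y.2 = 0 → ∀ b, fderiv ℂ p y.2 b = 0 →
        ∃ w : W, (fderiv ℂ (fun w : W => S.s (y, w)) 0 w).2 = b ∧
          ∀ k, k ≠ i0 → (fderiv ℂ (fun w : W => S.s (y, w)) 0 w).1 k = 0

/-- AA (transfer from `C` to `Y`). PROOF (with BA, MI, MZ, DS; CC, CF of SU). As ML/I_AA.lean with
`j0 = i0`: where all slopes are zero `f x = sA f x i0 (x i0) = 0 = p z`. -/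
def StAA : Prop := ∀ (𝔤 : Type) [NormedAddCommGroup 𝔤] [NormedSpace ℂ 𝔤]
  (G : Type) [TopologicalSpace G] [ChartedSpace 𝔤 G] [Group G] [LieGroup 𝓘(ℂ, 𝔤) ω G]
  (ι : Type) [Fintype ι] [DecidableEq ι] (M : ι → Type)
  [∀ i, NormedAddCommGroup (M i)] [∀ i, NormedSpace ℂ (M i)] [∀ i, FiniteDimensional ℂ (M i)]
  (B : Type) [NormedAddCommGroup B] [NormedSpace ℂ B] [FiniteDimensional ℂ B]
  (ρ : ∀ i, GMod 𝔤 G (M i)) (ρV : GMod 𝔤 G ((∀ i, M i) × B)) (f : (∀ i, M i) → ℂ) (i0 : ι)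
  (p : B → ℂ), MAff f i0 →
    (∀ g y, ρV.act g y = (fun i => (ρ i).act g (y.1 i), y.2)) →
    (∀ g x, f (fun i => (ρ i).act g (x i)) = f x) → Differentiable ℂ p →
    (∀ z, p z = 0 → fderiv ℂ p z ≠ 0) → GElliptic (GMod.triv (𝔤 := 𝔤) (G := G) B) p →
    GElliptic ρV (fA f p)

/-- PC (conjugation by a point dependent automorphism). `Ψ(·,a)` is an automorphism with inverse
`Ψ(·,-a)` for every parameter `a`; `A` chooses the parameter equivariantly. PROOF. As SU/I_CJ.lean: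
`s'(v,w) = Ψ(s(Ψ(v,A v),w), -A v)`, same module. `s'(v,0) = v`; `F` is preserved by `Ψ`; equivariance:
`Ψ(g v,A(g v)) = g Ψ(v,A v)`, `Ψ(g u,-g a) = g Ψ(u,-a)`. Range: if `D_w s(Ψ(v,A v),0) w = d_vΨ(v,a) τ`
(`a = A v`), the derivative of `w ↦ Ψ(s(..,w),-a)` at `0` at `w` is `dΨ(·,-a)` of it, which is `τ` since
`Ψ(Ψ(v,a),-a) = v` for all `v`. -/
def StPC : Prop := ∀ (𝔤 : Type) [NormedAddCommGroup 𝔤] [NormedSpace ℂ 𝔤]
  (G : Type) [TopologicalSpace G] [ChartedSpace 𝔤 G] [Group G]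
  (V H : Type) [NormedAddCommGroup V] [NormedSpace ℂ V] [NormedAddCommGroup H] [NormedSpace ℂ H]
  (ρ : GMod 𝔤 G V) (ρH : GMod 𝔤 G H) (F : V → ℂ) (Ψ : V × H → V) (A : V → H),
  Differentiable ℂ Ψ → Differentiable ℂ A → (∀ v a, Ψ (Ψ (v, a), -a) = v) →
    (∀ v a, F (Ψ (v, a)) = F v) → (∀ g v a, Ψ (ρ.act g v, ρH.act g a) = ρ.act g (Ψ (v, a))) →
    (∀ g v, A (ρ.act g v) = ρH.act g (A v)) →
    ∀ R : V → Set V, Covers ρ F R →
      Covers ρ F (fun v => {τ | fderiv ℂ (fun u => Ψ (u, A v)) v τ ∈ R (Ψ (v, A v))})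

/-- PH (the family `Ψ_{j,b}`). PROOF (with DS, EQ; QD, QH of SU). As ML/I_PH.lean with `x0` replaced by the
parameter `m`: with `u = sA f x j m`, `Ψ((x,z),m) = (update x j (x j + (qq p z (u b) b) m), z + u b)`. `sA f x j` is
the same at the new point (DS), so the new `u` for `-m` is `-u`; `F` is preserved: `f` grows by
`(qq p z (u b) b) u = qq p z (u b) (u b) = p(z + u b) - p z`. `Ψ(Ψ(v,m),-m) = v` by `qq p (z + c) (-c) = qq p z c`
with `c = u b`, `(-u) b = -(u b)`. Equivariance: `sA f (g x) j (g m) = sA f x j m` (EQ). If `sA f x j = 0` then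
`u = 0` and `qq p z 0 = dp(z)`. -/
def StPH : Prop := ∀ (𝔤 : Type) [NormedAddCommGroup 𝔤] [NormedSpace ℂ 𝔤]
  (G : Type) [TopologicalSpace G] [ChartedSpace 𝔤 G] [Group G] [LieGroup 𝓘(ℂ, 𝔤) ω G]
  (ι : Type) [Fintype ι] [DecidableEq ι] (M : ι → Type)
  [∀ i, NormedAddCommGroup (M i)] [∀ i, NormedSpace ℂ (M i)] [∀ i, FiniteDimensional ℂ (M i)]
  (B : Type) [NormedAddCommGroup B] [NormedSpace ℂ B] [FiniteDimensional ℂ B]
  (ρ : ∀ i, GMod 𝔤 G (M i)) (ρV : GMod 𝔤 G ((∀ i, M i) × B)) (f : (∀ i, M i) → ℂ) (i0 : ι)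
  (p : B → ℂ), MAff f i0 →
    (∀ g y, ρV.act g y = (fun i => (ρ i).act g (y.1 i), y.2)) →
    (∀ g x, f (fun i => (ρ i).act g (x i)) = f x) → Differentiable ℂ p → ∀ (j : ι) (b : B),
    ∃ Ψ : ((∀ i, M i) × B) × M j → (∀ i, M i) × B, Differentiable ℂ Ψ ∧
      (∀ v a, Ψ (Ψ (v, a), -a) = v) ∧ (∀ v a, fA f p (Ψ (v, a)) = fA f p v) ∧
      (∀ g v a, Ψ (ρV.act g v, (ρ j).act g a) = ρV.act g (Ψ (v, a))) ∧
      ∀ (v : (∀ i, M i) × B) a, sA f v.1 j = 0 →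
        Ψ (v, a) = (Function.update v.1 j (v.1 j + (fderiv ℂ p v.2 b) • a), v.2)

/-- IE (interpolation). PROOF. Put `u_i = x_i + t (x0_i - x_i)`. Claim: for all disjoint finite sets `A`, `S` of
slots `f(v_{A,S}) = 0`, `v_{A,S}` having the coordinate `x0_i` for `i ∈ A`, `u_i` for `i ∈ S`, `x_i` elsewhere.
Induction on `A`: `A = ∅` is the hypothesis. `x0_j = x_j + t⁻¹ (u_j - x_j)`, so as `f` is affine in the slot `j`
(`MAff.aff`) `f(v_{A ∪ {j},S}) = (1 - t⁻¹) f(v_{A,S}) + t⁻¹ f(v_{A,S ∪ {j}}) = 0`. Take `A` = all slots. -/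
def StIE : Prop := ∀ (ι : Type) [Fintype ι] [DecidableEq ι] (M : ι → Type)
  [∀ i, NormedAddCommGroup (M i)] [∀ i, NormedSpace ℂ (M i)]
  (f : (∀ i, M i) → ℂ) (i0 : ι) (x x0 : ∀ i, M i) (t : ℂ), MAff f i0 → t ≠ 0 →
    (∀ S : Finset ι, f (fun i => if i ∈ S then x i + t • (x0 i - x i) else x i) = 0) → f x0 = 0

/-- IS (induction over the slots). PROOF (with BA, PC, PH, DS; CC of SU). Write `t = dp(z)(b)`. Induction
on `S` (`Finset.induction_on`). `S = ∅`: `f x ≠ 0` gives `sA f x i0 (x i0) = f x ≠ 0` (DS); this is BA.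
`S = insert j S0`, `j ∉ S0`: let `R0` be the set for `S0`, `Ψ` from PH for `j`, `b`, `A(x,z) = x0 j - x j`
(equivariant because `x0` is fixed). By PC the set `{τ | d_vΨ(v,A v) τ ∈ R0 (Ψ(v,A v))}` is covered, and by CC
its union with that of BA. Let `F y = 0`, `fderiv F y τ = 0`. If some slope at `x` is nonzero: BA. Otherwise
`f(x with x_i + t (x0_i - x_i) for i ∈ S) ≠ 0` and `y' = Ψ(y,A y) = (update x j (x j + t (x0_j - x_j)), z)`; replacing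
in its first component the coordinates `i ∈ S0` gives the same point as for `S` and `x` (as `j ∉ S0`), so the
condition for `S0` holds at `y'` (same `z`, same `t`), and `fderiv F y' (d_vΨ τ) = fderiv (F ∘ Ψ(·,A y)) y τ =
fderiv F y τ = 0`. -/
def StIS : Prop := ∀ (𝔤 : Type) [NormedAddCommGroup 𝔤] [NormedSpace ℂ 𝔤]
  (G : Type) [TopologicalSpace G] [ChartedSpace 𝔤 G] [Group G] [LieGroup 𝓘(ℂ, 𝔤) ω G]
  (ι : Type) [Fintype ι] [DecidableEq ι] (M : ι → Type)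
  [∀ i, NormedAddCommGroup (M i)] [∀ i, NormedSpace ℂ (M i)] [∀ i, FiniteDimensional ℂ (M i)]
  (B : Type) [NormedAddCommGroup B] [NormedSpace ℂ B] [FiniteDimensional ℂ B]
  (ρ : ∀ i, GMod 𝔤 G (M i)) (ρV : GMod 𝔤 G ((∀ i, M i) × B)) (f : (∀ i, M i) → ℂ) (i0 : ι)
  (p : B → ℂ), MAff f i0 →
    (∀ g y, ρV.act g y = (fun i => (ρ i).act g (y.1 i), y.2)) →
    (∀ g x, f (fun i => (ρ i).act g (x i)) = f x) → Differentiable ℂ p →
    (∀ z, p z = 0 → fderiv ℂ p z ≠ 0) →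
    ∀ (x0 : ∀ i, M i), (∀ g i, (ρ i).act g (x0 i) = x0 i) → ∀ (b : B) (S : Finset ι),
    Covers ρV (fA f p) (fun y => {τ | ((∃ j, sA f y.1 j ≠ 0) ∨
      f (fun i => if i ∈ S then y.1 i + (fderiv ℂ p y.2 b) • (x0 i - y.1 i) else y.1 i) ≠ 0) ∧
      fderiv ℂ (fA f p) y τ = 0})

/-- OF (`f ≠ 0` at a fixed point). PROOF (with IS, IE, DS, BA; CC, CF of SU). As ML/I_OF.lean. Let
`b_1..b_n` be a basis of `B`; by CF (over the pairs `(i,S)`) and CC the union of the sets of BA and of IS for all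
`b = b_i` and all `S` is covered. Let `y = (x,z)`, `F y = 0`, `fderiv F y τ = 0`. If some slope is nonzero: BA.
Otherwise `f x = sA f x i0 (x i0) = 0 = p z`, `dp(z) ≠ 0`, `t = dp(z)(b_i) ≠ 0` for some `i`. If the values
`f(x with x_i + t (x0_i - x_i) for i ∈ S)` are zero for all `S` then `f(x0) = 0` by IE. So IS for some `S`. -/
def StOF : Prop := ∀ (𝔤 : Type) [NormedAddCommGroup 𝔤] [NormedSpace ℂ 𝔤]
  (G : Type) [TopologicalSpace G] [ChartedSpace 𝔤 G] [Group G] [LieGroup 𝓘(ℂ, 𝔤) ω G]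
  (ι : Type) [Fintype ι] [DecidableEq ι] (M : ι → Type)
  [∀ i, NormedAddCommGroup (M i)] [∀ i, NormedSpace ℂ (M i)] [∀ i, FiniteDimensional ℂ (M i)]
  (B : Type) [NormedAddCommGroup B] [NormedSpace ℂ B] [FiniteDimensional ℂ B]
  (ρ : ∀ i, GMod 𝔤 G (M i)) (ρV : GMod 𝔤 G ((∀ i, M i) × B)) (f : (∀ i, M i) → ℂ) (i0 : ι)
  (p : B → ℂ), MAff f i0 →
    (∀ g y, ρV.act g y = (fun i => (ρ i).act g (y.1 i), y.2)) →
    (∀ g x, f (fun i => (ρ i).act g (x i)) = f x) → Differentiable ℂ p →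
    (∀ z, p z = 0 → fderiv ℂ p z ≠ 0) →
    ∀ (x0 : ∀ i, M i), (∀ g i, (ρ i).act g (x0 i) = x0 i) → f x0 ≠ 0 →
      GElliptic ρV (fA f p)

end Pool.Agent.Work.MP_e4a69c_an.AF
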